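import Mathlib

/-! [EG-1] Closed walks modulo stabilizers: basic lemmas.  helper20 -/

namespace Pool.Agent.Helper20.EG

variable {G : Type*} [Group G] {ι : Type*} {X : Type*}

/-- One step of the alternating walk: from side `false` multiply by `s i`, from side `true` by its
inverse; the side changes. -/
def stp (s : ι → G) (i : ι) (v : G × Bool) : G × Bool :=
  (v.1 * (bif v.2 then (s i)⁻¹ else s i), !v.2)

/-- The alternating walk with letters `l`. -/
def run (s : ι → G) : List ι → G × Bool → G × Bool
  | [], v => v
  | i :: l, v => run s l (stp s i v)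

/-- The side after `n` steps. -/
def sd : ℕ → Bool → Bool
  | 0, b => b
  | n + 1, b => sd n (!b)

@[simp] theorem run_nil (s : ι → G) (v : G × Bool) : run s [] v = v := rfl

@[simp] theorem run_cons (s : ι → G) (i : ι) (l : List ι) (v : G × Bool) :
    run s (i :: l) v = run s l (stp s i v) := rfl

@[simp] theorem stp_snd (s : ι → G) (i : ι) (v : G × Bool) : (stp s i v).2 = !v.2 := rfl

@[simp] theorem stp_stp (s : ι → G) (i : ι) (v : G × Bool) : stp s i (stp s i v) = v := by
  obtain ⟨g, b⟩ := v
  cases b <;> simp [stp]

theorem run_append (s : ι → G) (l l' : List ι) (v : G × Bool) :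
    run s (l ++ l') v = run s l' (run s l v) := by
  induction l generalizing v with
  | nil => rfl
  | cons a l ih => simp [ih]

theorem run_reverse (s : ι → G) (l : List ι) (v : G × Bool) :
    run s l.reverse (run s l v) = v := by
  induction l generalizing v with
  | nil => rfl
  | cons a l ih => simp [run_append, ih]

theorem run_reverse' (s : ι → G) (l : List ι) (v : G × Bool) :
    run s l (run s l.reverse v) = v := by
  simpa using run_reverse s l.reverse v

theorem run_snd (s : ι → G) (l : List ι) (v : G × Bool) : (run s l v).2 = sd l.length v.2 := by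
  induction l generalizing v with
  | nil => rfl
  | cons a l ih => simp [ih, sd]

theorem run_fst (s : ι → G) (l : List ι) (g : G) (b : Bool) :
    (run s l (g, b)).1 = g * (run s l (1, b)).1 := by
  induction l generalizing g b with
  | nil => simp
  | cons a l ih =>
    simp only [run_cons, stp]
    rw [ih, ih (1 * _), one_mul, mul_assoc]

theorem run_left (s : ι → G) (l : List ι) (g : G) (z : G × Bool) :
    run s l (g * z.1, z.2) = (g * (run s l z).1, (run s l z).2) := by
  apply Prod.ext
  · rw [run_fst, mul_assoc, ← run_fst]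
  · rw [run_snd, run_snd]

theorem isChain_reverse_ne {l : List ι} (h : l.IsChain (· ≠ ·)) : l.reverse.IsChain (· ≠ ·) := by
  rw [List.isChain_reverse]
  exact h.imp fun a b hab => hab.symm

theorem isChain_map_inj {κ : Type*} {f : ι → κ} (hf : Function.Injective f) {l : List ι}
    (h : l.IsChain (· ≠ ·)) : (l.map f).IsChain (· ≠ ·) := by
  rw [List.isChain_map]
  exact h.imp fun a b hab e => hab (hf e)

/-- A left invariant vertex map without short closed reduced walks. -/
structure Sys (s : ι → G) (F : G × Bool → X) (μ : ℕ) : Prop where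
  left : ∀ (g : G) (z z' : G × Bool), F z = F z' → F (g * z.1, z.2) = F (g * z'.1, z'.2)
  girth : ∀ l : List ι, l ≠ [] → l.IsChain (· ≠ ·) → l.length < μ → ∀ z, F (run s l z) ≠ F z

theorem Sys.two_words {s : ι → G} {F : G × Bool → X} {μ : ℕ} (hS : Sys s F μ) (p : List ι) :
    ∀ (q : List ι), p.IsChain (· ≠ ·) → q.IsChain (· ≠ ·) → p ≠ q → ∀ z,
      F (run s p z) = F (run s q z) → μ ≤ p.length + q.length := by
  induction p with
  | nil =>
    intro q _ hq hne z h
    by_contra hcon
    exact hS.girth q hne.symm hq (by simpa using hcon) z (by simpa using h.symm)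
  | cons a p ih =>
    intro q hp hq hne z h
    rcases q with _ | ⟨b, q⟩
    · by_contra hcon
      exact hS.girth _ hne hp (by simpa using hcon) z (by simpa using h)
    · by_cases hab : a = b
      · subst hab
        have h1 : p ≠ q := fun e => hne (by rw [e])
        have := ih q (List.isChain_of_isChain_cons hp) (List.isChain_of_isChain_cons hq) h1 _ h
        simp only [List.length_cons]
        omega
      · by_contra hcon
        refine hS.girth ((a :: p).reverse ++ (b :: q)) (by simp) ?_ ?_ (run s (a :: p) z) ?_
        · rw [List.isChain_append]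
          refine ⟨isChain_reverse_ne hp, hq, ?_⟩
          intro x hx y hy
          simp at hx hy
          subst hx hy
          exact hab
        · simp only [List.length_append, List.length_reverse] at hcon ⊢
          omega
        · rw [run_append, run_reverse, h]

/-- Adjacency of images. -/
def AdjX (s : ι → G) (F : G × Bool → X) (y y' : X) : Prop :=
  ∃ (z : G × Bool) (a : ι), F z = y ∧ F (stp s a z) = y'

theorem AdjX.symm {s : ι → G} {F : G × Bool → X} {y y' : X} (h : AdjX s F y y') :
    AdjX s F y' y := by
  obtain ⟨z, a, h1, h2⟩ := h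
  exact ⟨stp s a z, a, h2, by rw [stp_stp]; exact h1⟩

/-- A balanced closed pattern. -/
structure Bal (s : ℚ → G) (F : G × Bool → X) (μ : ℕ) (β : Bool) (α γ : ℕ) (p q : List ℕ)
    (J : ℕ) : Prop where
  chp : (α :: p).IsChain (· ≠ ·)
  chq : (γ :: q).IsChain (· ≠ ·)
  ne : α ≠ γ
  len : (p.length + 1) + (q.length + 1) = μ
  l1 : p.length ≤ q.length
  l2 : q.length ≤ p.length + 1
  bp : ∀ a ∈ α :: p, a < J
  bq : ∀ a ∈ γ :: q, a < J
  closed : ∀ f : ℕ → ℚ, StrictMono f → ∀ c : G × Bool, c.2 = β →
    F (run s ((α :: p).map f) c) = F (run s ((γ :: q).map f) c)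

section Cyc

variable {s : ℚ → G} {F : G × Bool → X} {μ : ℕ} {β : Bool} {α γ : ℕ} {p q : List ℕ} {J : ℕ}

/-- The cycle of a balanced pattern with centre `c` and letters `f`. -/
def cyc (s : ℚ → G) (F : G × Bool → X) (μ α γ : ℕ) (p q : List ℕ) (f : ℕ → ℚ) (c : G × Bool)
    (t : ℕ) : X :=
  if t ≤ p.length + 1 then F (run s (((α :: p).map f).take t) c)
  else F (run s (((γ :: q).map f).take (μ - t)) c)

theorem take_succ_run {s : ι → G} (l : List ι) (i : ℕ) (hi : i < l.length) (c : G × Bool) :
    run s (l.take (i + 1)) c = stp s l[i] (run s (l.take i) c) := by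
  rw [List.take_add_one, List.getElem?_eq_getElem hi, run_append]
  rfl

theorem cyc_zero (f : ℕ → ℚ) (c : G × Bool) : cyc s F μ α γ p q f c 0 = F c := by
  simp [cyc]

theorem cyc_len (hB : Bal s F μ β α γ p q J) (f : ℕ → ℚ) (c : G × Bool) :
    cyc s F μ α γ p q f c μ = F c := by
  have := hB.len
  rw [cyc, if_neg (by omega)]
  simp

theorem cyc_one (f : ℕ → ℚ) (c : G × Bool) :
    cyc s F μ α γ p q f c 1 = F (stp s (f α) c) := by
  simp [cyc]

theorem cyc_last (hB : Bal s F μ β α γ p q J) (h3 : 3 ≤ μ) (f : ℕ → ℚ) (c : G × Bool) :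
    cyc s F μ α γ p q f c (μ - 1) = F (stp s (f γ) c) := by
  have h1 := hB.len
  have h2 := hB.l2
  have h4 := hB.l1
  rw [cyc, if_neg (by omega), show μ - (μ - 1) = 1 by omega]
  simp

/-- Both descriptions agree at the closing vertex. -/
theorem cyc_mid (hB : Bal s F μ β α γ p q J) {f : ℕ → ℚ} (hf : StrictMono f) (c : G × Bool)
    (hc : c.2 = β) : cyc s F μ α γ p q f c (p.length + 1) =
      F (run s (((γ :: q).map f).take (μ - (p.length + 1))) c) := by
  have h1 := hB.len
  rw [cyc, if_pos le_rfl, List.take_of_length_le (by simp),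
    List.take_of_length_le (by simp; omega)]
  exact hB.closed f hf c hc

theorem cyc_adj (hB : Bal s F μ β α γ p q J) {f : ℕ → ℚ} (hf : StrictMono f) (c : G × Bool)
    (hc : c.2 = β) (t : ℕ) (ht : t < μ) :
    AdjX s F (cyc s F μ α γ p q f c t) (cyc s F μ α γ p q f c (t + 1)) := by
  have h1 := hB.len
  by_cases ht1 : t < p.length + 1
  · have e0 := take_succ_run (s := s) ((α :: p).map f) t (by simpa using ht1) c
    have e1 : cyc s F μ α γ p q f c t = F (run s (((α :: p).map f).take t) c) := by
      rw [cyc, if_pos (by omega)]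
    have e2 : cyc s F μ α γ p q f c (t + 1) = F (run s (((α :: p).map f).take (t + 1)) c) := by
      rw [cyc, if_pos (show t + 1 ≤ p.length + 1 by omega)]
    exact ⟨run s (((α :: p).map f).take t) c, _, e1.symm, (congrArg F e0.symm).trans e2.symm⟩
  · have e1 : cyc s F μ α γ p q f c t = F (run s (((γ :: q).map f).take (μ - t)) c) := by
      by_cases ht2 : t = p.length + 1
      · rw [ht2]
        exact cyc_mid hB hf c hc
      · rw [cyc, if_neg (by omega)]
    have e2 : cyc s F μ α γ p q f c (t + 1) =
        F (run s (((γ :: q).map f).take (μ - (t + 1))) c) := by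
      rw [cyc, if_neg (by omega)]
    apply AdjX.symm
    have e0 := take_succ_run (s := s) ((γ :: q).map f) (μ - (t + 1)) (by simp; omega) c
    rw [show μ - (t + 1) + 1 = μ - t by omega] at e0
    exact ⟨run s (((γ :: q).map f).take (μ - (t + 1))) c, _, e2.symm,
      (congrArg F e0.symm).trans e1.symm⟩

theorem cyc_inj_lt (hS : Sys s F μ) (hB : Bal s F μ β α γ p q J) {f : ℕ → ℚ} (hf : StrictMono f)
    (c : G × Bool) (t t' : ℕ) (htt : t < t') (ht' : t' < μ) :
    cyc s F μ α γ p q f c t ≠ cyc s F μ α γ p q f c t' := by
  have h1 := hB.len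
  have h2 := hB.l2
  have h4 := hB.l1
  have cp := isChain_map_inj hf.injective hB.chp
  have cq := isChain_map_inj hf.injective hB.chq
  intro h
  by_cases ht2 : t' ≤ p.length + 1
  · rw [cyc, cyc, if_pos (by omega), if_pos ht2] at h
    have := hS.two_words _ _ (cp.take t) (cp.take t') (by
      intro e
      have := congrArg List.length e
      simp at this
      omega) c h
    simp only [List.length_take, List.length_map, List.length_cons] at this
    omega
  · by_cases ht1 : t ≤ p.length + 1
    · rw [cyc, cyc, if_pos ht1, if_neg ht2] at h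
      have := hS.two_words _ _ (cp.take t) (cq.take (μ - t')) (by
        obtain ⟨j, hj⟩ : ∃ j, μ - t' = j + 1 := ⟨μ - t' - 1, by omega⟩
        rw [hj]
        rcases t with _ | t
        · simp
        · intro e
          simp only [List.map_cons, List.take_succ_cons, List.cons.injEq] at e
          exact hB.ne (hf.injective e.1)) c h
      simp only [List.length_take, List.length_map, List.length_cons] at this
      omega
    · rw [cyc, cyc, if_neg ht1, if_neg ht2] at h
      have := hS.two_words _ _ (cq.take (μ - t)) (cq.take (μ - t')) (by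
        intro e
        have := congrArg List.length e
        simp at this
        omega) c h
      simp only [List.length_take, List.length_map, List.length_cons] at this
      omega

theorem cyc_inj (hS : Sys s F μ) (hB : Bal s F μ β α γ p q J) {f : ℕ → ℚ} (hf : StrictMono f)
    (c : G × Bool) (t t' : ℕ) (ht : t < μ) (ht' : t' < μ)
    (h : cyc s F μ α γ p q f c t = cyc s F μ α γ p q f c t') : t = t' := by
  rcases lt_trichotomy t t' with h1 | h1 | h1
  · exact absurd h (cyc_inj_lt hS hB hf c t t' h1 ht')
  · exact h1
  · exact absurd h.symm (cyc_inj_lt hS hB hf c t' t h1 ht)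

/-- Same centre and same first letter, other letters different. -/
theorem cyc_gen (hS : Sys s F μ) (hB : Bal s F μ β α γ p q J) {f f' : ℕ → ℚ} (hf : StrictMono f)
    (hf' : StrictMono f') (hα : f α = f' α)
    (hdis : ∀ a b, a < J → b < J → a ≠ α → f a ≠ f' b) (c : G × Bool) (t : ℕ) (ht : 2 ≤ t)
    (ht' : t < μ) : cyc s F μ α γ p q f c t ≠ cyc s F μ α γ p q f' c t := by
  have h1 := hB.len
  have h2 := hB.l2
  have h4 := hB.l1
  intro h
  by_cases ht1 : t ≤ p.length + 1
  · rw [cyc, cyc, if_pos ht1, if_pos ht1] at h
    obtain ⟨t, rfl⟩ : ∃ k, t = k + 2 := ⟨t - 2, by omega⟩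
    simp only [List.map_cons, List.take_succ_cons, run_cons, hα] at h
    rcases p with _ | ⟨y, p⟩
    · simp at ht1
    have cp := isChain_map_inj hf.injective (List.isChain_of_isChain_cons hB.chp)
    have cp' := isChain_map_inj hf'.injective (List.isChain_of_isChain_cons hB.chp)
    have hy : y ≠ α := by
      have := hB.chp
      simp at this
      exact fun e => this.1 e.symm
    have := hS.two_words _ _ (cp.take (t + 1)) (cp'.take (t + 1)) (by
      intro e
      simp only [List.map_cons, List.take_succ_cons, List.cons.injEq] at e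
      exact hdis y y (hB.bp y (by simp)) (hB.bp y (by simp)) hy e.1) _ h
    simp only [List.length_take, List.length_map, List.length_cons] at this ht1 h1 h2 h4
    omega
  · rw [cyc, cyc, if_neg ht1, if_neg ht1] at h
    have cq := isChain_map_inj hf.injective hB.chq
    have cq' := isChain_map_inj hf'.injective hB.chq
    have := hS.two_words _ _ (cq.take (μ - t)) (cq'.take (μ - t)) (by
      obtain ⟨j, hj⟩ : ∃ j, μ - t = j + 1 := ⟨μ - t - 1, by omega⟩
      rw [hj]
      intro e
      simp only [List.map_cons, List.take_succ_cons, List.cons.injEq] at e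
      exact hdis γ γ (hB.bq γ (by simp)) (hB.bq γ (by simp)) hB.ne.symm e.1) _ h
    simp only [List.length_take, List.length_map, List.length_cons] at this
    omega

/-- Same centre, and the first letter of the second arc is the only common letter. -/
theorem cyc_cross (hS : Sys s F μ) (hB : Bal s F μ β α γ p q J) (h3 : 3 ≤ μ) {f f' : ℕ → ℚ}
    (hf : StrictMono f) (hf' : StrictMono f') (hγ : f γ = f' γ)
    (hdis : ∀ a b, a < J → b < J → f a = f' b → a = γ ∧ b = γ) (c : G × Bool) (hc : c.2 = β)
    (t t' : ℕ) (ht : 1 ≤ t) (ht2 : t ≤ μ - 1) (ht' : 1 ≤ t') (ht2' : t' ≤ μ - 2) :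
    cyc s F μ α γ p q f c t ≠ cyc s F μ α γ p q f' c t' := by
  have h1 := hB.len
  have h2 := hB.l2
  have h4 := hB.l1
  have cp := isChain_map_inj hf.injective hB.chp
  have cq := isChain_map_inj hf.injective hB.chq
  have cp' := isChain_map_inj hf'.injective hB.chp
  have cq' := isChain_map_inj hf'.injective hB.chq
  have hαα : f α ≠ f' α := fun e => hB.ne (hdis α α (hB.bp α (by simp)) (hB.bp α (by simp)) e).1
  -- both on the second arcs
  have key : ∀ j j', 1 ≤ j → 2 ≤ j' → j ≤ q.length + 1 → j' ≤ q.length + 1 →
      j + j' < μ + 2 →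
      F (run s (((γ :: q).map f).take j) c) ≠ F (run s (((γ :: q).map f').take j') c) := by
    intro j j' hj hj' hj2 hj2' hjj h
    obtain ⟨j, rfl⟩ : ∃ k, j = k + 1 := ⟨j - 1, by omega⟩
    obtain ⟨j', rfl⟩ : ∃ k, j' = k + 2 := ⟨j' - 2, by omega⟩
    simp only [List.map_cons, List.take_succ_cons, run_cons, hγ] at h
    rcases q with _ | ⟨y, q⟩
    · simp at hj2'
    have dq := isChain_map_inj hf.injective (List.isChain_of_isChain_cons hB.chq)
    have dq' := isChain_map_inj hf'.injective (List.isChain_of_isChain_cons hB.chq)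
    have hy : y ≠ γ := by
      have := hB.chq
      simp at this
      exact fun e => this.1 e.symm
    have := hS.two_words _ _ (dq.take j) (dq'.take (j' + 1)) (by
      rcases j with _ | j
      · simp
      · intro e
        simp only [List.map_cons, List.take_succ_cons, List.cons.injEq] at e
        exact hy (hdis y y (hB.bq y (by simp)) (hB.bq y (by simp)) e.1).1) _ h
    simp only [List.length_take, List.length_map, List.length_cons] at this hj2 hj2' h1
    omega
  intro h
  by_cases a1 : t ≤ p.length + 1 <;> by_cases a2 : t' ≤ p.length + 1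
  · have h0 := h
    rw [cyc, cyc, if_pos a1, if_pos a2] at h
    have := hS.two_words _ _ (cp.take t) (cp'.take t') (by
      obtain ⟨j, hj⟩ : ∃ j, t = j + 1 := ⟨t - 1, by omega⟩
      obtain ⟨j', hj'⟩ : ∃ j, t' = j + 1 := ⟨t' - 1, by omega⟩
      rw [hj, hj']
      intro e
      simp only [List.map_cons, List.take_succ_cons, List.cons.injEq] at e
      exact hαα e.1) _ h
    simp only [List.length_take, List.length_map, List.length_cons] at this
    have e1 : t = p.length + 1 := by omega
    have e2 : t' = p.length + 1 := by omega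
    rw [e1, e2, cyc_mid hB hf c hc, cyc_mid hB hf' c hc] at h0
    exact key _ _ (by omega) (by omega) (by omega) (by omega) (by omega) h0
  · rw [cyc, cyc, if_pos a1, if_neg a2] at h
    have := hS.two_words _ _ (cp.take t) (cq'.take (μ - t')) (by
      obtain ⟨j, hj⟩ : ∃ j, t = j + 1 := ⟨t - 1, by omega⟩
      obtain ⟨j', hj'⟩ : ∃ j, μ - t' = j + 1 := ⟨μ - t' - 1, by omega⟩
      rw [hj, hj']
      intro e
      simp only [List.map_cons, List.take_succ_cons, List.cons.injEq] at e
      exact hB.ne (hdis α γ (hB.bp α (by simp)) (hB.bq γ (by simp)) e.1).1) _ h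
    simp only [List.length_take, List.length_map, List.length_cons] at this
    omega
  · rw [cyc, cyc, if_neg a1, if_pos a2] at h
    have := hS.two_words _ _ (cq.take (μ - t)) (cp'.take t') (by
      obtain ⟨j, hj⟩ : ∃ j, μ - t = j + 1 := ⟨μ - t - 1, by omega⟩
      obtain ⟨j', hj'⟩ : ∃ j, t' = j + 1 := ⟨t' - 1, by omega⟩
      rw [hj, hj']
      intro e
      simp only [List.map_cons, List.take_succ_cons, List.cons.injEq] at e
      exact hB.ne (hdis γ α (hB.bq γ (by simp)) (hB.bp α (by simp)) e.1).2) _ h
    simp only [List.length_take, List.length_map, List.length_cons] at this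
    omega
  · rw [cyc, cyc, if_neg a1, if_neg a2] at h
    exact key _ _ (by omega) (by omega) (by omega) (by omega) (by omega) h

end Cyc

end Pool.Agent.Helper20.EG
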