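import Pool.Agent.helper20.EG.Reduce

/-! [EG-7] Arbitrary groups: long even cycles, or many elements without short relations.
helper20 -/

namespace Pool.Agent.Helper20.EG

open Filter SimpleGraph Pool.Agent.Helper20.EC

section

variable {Γ : ℕ → Type*} [∀ D, Group (Γ D)] {Y : ℕ → Type*} [∀ D, MulAction (Γ D) (Y D)]
  {τ : ∀ D, ℕ → Γ D} {x0 : ∀ D, Bool → Y D} {Gr : ∀ D, SimpleGraph (Y D)}

/-- A short closed word in the limit gives all long even cycles. -/
theorem limit_cycle (L k : ℕ) (hk : 4 * L ^ 2 ≤ k)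
    (hadj : ∀ D j (g : Γ D), (Gr D).Adj (g • x0 D false) ((g * τ D j) • x0 D true))
    (h0 : ∀ D, ∀ i < D, ∀ j < D, (τ D i)⁻¹ • x0 D false = (τ D j)⁻¹ • x0 D false → i = j)
    (h1 : ∀ D, ∀ i < D, ∀ j < D, τ D i • x0 D true = τ D j • x0 D true → i = j)
    (hword : ∃ l : List ℚ, l ≠ [] ∧ l.IsChain (· ≠ ·) ∧ l.length ≤ 2 * L ∧
      ∃ z, Fq τ x0 (run FreeGroup.of l z) = Fq τ x0 z) :
    ∃ D, (cycleGraph (2 * k)).IsContained (Gr D) := by
  classical
  obtain ⟨l0, a1, a2, a3, z0, hcl⟩ := hword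
  have hex : ∃ n, ∃ l : List ℚ, l ≠ [] ∧ l.IsChain (· ≠ ·) ∧ l.length = n ∧
      ∃ z, Fq τ x0 (run FreeGroup.of l z) = Fq τ x0 z := ⟨_, l0, a1, a2, rfl, z0, hcl⟩
  obtain ⟨l, hl, hlc, hln, z, hz⟩ := Nat.find_spec hex
  have hle : Nat.find hex ≤ 2 * L :=
    (Nat.find_min' hex ⟨l0, a1, a2, rfl, z0, hcl⟩).trans a3
  have hmin : ∀ l' : List ℚ, l' ≠ [] → l'.IsChain (· ≠ ·) → l'.length < Nat.find hex →
      ∀ z, Fq τ x0 (run FreeGroup.of l' z) ≠ Fq τ x0 z := fun l' b1 b2 b3 z' b4 =>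
    Nat.find_min hex b3 ⟨l', b1, b2, rfl, z', b4⟩
  set μ := Nat.find hex with hμ
  have hS : Sys FreeGroup.of (Fq τ x0) μ := ⟨Fq_left τ x0, hmin⟩
  have h3 : 3 ≤ μ := by
    by_contra hcon
    rcases l with _ | ⟨a, _ | ⟨b, _ | ⟨c, l⟩⟩⟩
    · exact hl rfl
    · exact ne_one hadj a z hz
    · simp at hlc
      exact ne_two h0 h1 hlc z hz
    · simp at hln
      omega
  obtain ⟨β, α, γ, p, q, J, hB⟩ := exists_bal h3 l hln hlc z hz
  obtain ⟨a, b, hab, hlen⟩ := arith μ L k h3 hle hk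
  obtain ⟨c, hc⟩ := all_lengths hS hB h3 b hab a
  rw [hlen] at hc
  exact transfer hadj hc

/-- Words with bounded norm form a finite set. -/
theorem finite_norm (M L : ℕ) : {w : FreeGroup (Fin M) | w.norm ≤ L}.Finite :=
  (List.finite_length_le (Fin M × Bool) L).preimage FreeGroup.toWord_injective.injOn

theorem limit_dich (L M k : ℕ) (hk : 4 * L ^ 2 ≤ k)
    (hadj : ∀ D j (g : Γ D), (Gr D).Adj (g • x0 D false) ((g * τ D j) • x0 D true))
    (h0 : ∀ D, ∀ i < D, ∀ j < D, (τ D i)⁻¹ • x0 D false = (τ D j)⁻¹ • x0 D false → i = j)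
    (h1 : ∀ D, ∀ i < D, ∀ j < D, τ D i • x0 D true = τ D j • x0 D true → i = j) :
    (∃ D, (cycleGraph (2 * k)).IsContained (Gr D)) ∨
    ∃ (D : ℕ) (x : Fin M → Γ D),
      (∀ i, ∃ y, (Gr D).Adj (x0 D false) y ∧ (Gr D).Adj (x i • x0 D false) y) ∧
      ∀ w : FreeGroup (Fin M), w ≠ 1 → w.norm ≤ L →
        FreeGroup.lift x w • x0 D false ≠ x0 D false := by
  classical
  by_cases hword : ∃ l : List ℚ, l ≠ [] ∧ l.IsChain (· ≠ ·) ∧ l.length ≤ 2 * L ∧
      ∃ z, Fq τ x0 (run FreeGroup.of l z) = Fq τ x0 z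
  · exact Or.inl (limit_cycle L k hk hadj h0 h1 hword)
  · right
    push Not at hword
    have key : ∀ᶠ p in (Om : Filter ((ℕ → ℕ) × ℕ)), ∀ w ∈ {w : FreeGroup (Fin M) | w.norm ≤ L},
        w ≠ 1 → FreeGroup.lift (fun i : Fin M => τ p.2 (p.1 (i + 1)) * (τ p.2 (p.1 0))⁻¹) w •
          x0 p.2 false ≠ x0 p.2 false := by
      rw [Filter.eventually_all_finite (finite_norm M L)]
      intro w hw
      by_cases hw1 : w = 1
      · exact Eventually.of_forall fun p h => absurd hw1 h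
      have hw' : FreeGroup.map (Fin.val : Fin M → ℕ) w ≠ 1 := by
        intro e
        apply hw1
        apply FreeGroup.map_injective Fin.val_injective
        rw [e, map_one]
      have hn : (FreeGroup.map (Fin.val : Fin M → ℕ) w).norm ≤ L := by
        have e : FreeGroup.map (Fin.val : Fin M → ℕ) w =
            FreeGroup.mk (w.toWord.map fun x => (x.1.val, x.2)) := by
          conv_lhs => rw [← FreeGroup.mk_toWord (x := w)]
          rw [FreeGroup.map.mk]
        rw [e]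
        refine FreeGroup.norm_mk_le.trans ?_
        rw [List.length_map]
        exact hw
      obtain ⟨l0, a1, a2, a3, a4⟩ := exists_list hw'
      have h2 := hword (l0.map (fun n : ℕ => (n : ℚ))) (by simpa using a1)
        (isChain_map_inj (Nat.strictMono_cast (α := ℚ)).injective a2)
        (by rw [List.length_map]; exact a3.trans (Nat.mul_le_mul_left 2 hn)) (1, false)
      rw [Ne, closed_iff τ x0 false l0 (fun n : ℕ => (n : ℚ)) Nat.strictMono_cast] at h2
      have h3 : ∀ᶠ p in (Om : Filter ((ℕ → ℕ) × ℕ)),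
          ¬ Cl x0 p.2 (fun j => τ p.2 (p.1 j)) l0 false := Ultrafilter.eventually_not.2 h2
      filter_upwards [h3] with p hp _ e
      apply hp
      unfold Cl
      have e1 := run_hom (FreeGroup.lift (fun j => τ p.2 (p.1 j))) FreeGroup.of l0 1 false
      rw [run_eq FreeGroup.of, a4, map_one] at e1
      simp only [FreeGroup.lift_apply_of] at e1
      have e2 : FreeGroup.lift (fun j => τ p.2 (p.1 j))
          (theta (FreeGroup.map (Fin.val : Fin M → ℕ) w)) =
          FreeGroup.lift (fun i : Fin M => τ p.2 (p.1 (i + 1)) * (τ p.2 (p.1 0))⁻¹) w := by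
        have e : ((FreeGroup.lift (fun j => τ p.2 (p.1 j))).comp theta).comp
            (FreeGroup.map (Fin.val : Fin M → ℕ)) =
            FreeGroup.lift (fun i : Fin M => τ p.2 (p.1 (i + 1)) * (τ p.2 (p.1 0))⁻¹) := by
          ext n
          simp [theta]
        have := DFunLike.congr_fun e w
        rw [MonoidHom.comp_apply, MonoidHom.comp_apply] at this
        exact this
      rw [e2] at e1
      rw [e1]
      exact e
    obtain ⟨p, hp⟩ := key.exists
    refine ⟨p.2, fun i => τ p.2 (p.1 (i + 1)) * (τ p.2 (p.1 0))⁻¹, ?_, fun w h2 h3 => hp w h3 h2⟩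
    intro i
    refine ⟨τ p.2 (p.1 (i + 1)) • x0 p.2 true, ?_, ?_⟩
    · have := hadj p.2 (p.1 (i + 1)) 1
      simpa using this
    · have := hadj p.2 (p.1 0) (τ p.2 (p.1 (i + 1)) * (τ p.2 (p.1 0))⁻¹)
      rw [inv_mul_cancel_right] at this
      exact this

end

/-- Main theorem: graphs with few orbits. -/
theorem orbit_dich.{u, v} (L M k : ℕ) (hk : 4 * L ^ 2 ≤ k) :
    ∃ D : ℕ, ∀ (V : Type u) [Fintype V] (Γ : SimpleGraph V) (G : Type v) [Group G]
      [MulAction G V], (∀ (g : G) (a b : V), Γ.Adj a b → Γ.Adj (g • a) (g • b)) →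
      D * Nat.card (MulAction.orbitRel.Quotient G V) * Fintype.card V < Γ.edgeSet.ncard →
        (cycleGraph (2 * k)).IsContained Γ ∨
        ∃ (v : V) (x : Fin M → G), (∀ i, ∃ y, Γ.Adj v y ∧ Γ.Adj (x i • v) y) ∧
          ∀ w : FreeGroup (Fin M), w ≠ 1 → w.norm ≤ L → FreeGroup.lift x w • v ≠ v := by
  by_contra hcon
  push Not at hcon
  choose V iV Γ G iG iA hact hcard hcyc hno using hcon
  have hred := fun D => reduction (G := G D) (Γ D) D (hcard D)
  choose v u τ h1 h2 h3 using hred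
  have hadj : ∀ D j (g : G D), (Γ D).Adj (g • (fun D b => bif b then u D else v D : ∀ D, Bool →
      V D) D false) ((g * τ D j) • (fun D b => bif b then u D else v D : ∀ D, Bool →
      V D) D true) := by
    intro D j g
    have := hact D g _ _ (h1 D j)
    rw [smul_smul] at this
    simpa using this
  rcases limit_dich (Γ := G) (Y := V) (Gr := Γ) (τ := τ)
    (x0 := fun D b => bif b then u D else v D) L M k hk hadj
    (by
      intro D i hi j hj he
      exact h2 D i hi j hj (by simpa using he))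
    (by
      intro D i hi j hj he
      exact h3 D i hi j hj (by simpa using he)) with ⟨D, hD⟩ | ⟨D, x, hx1, hx2⟩
  · obtain ⟨cp⟩ := hD
    exact (hcyc D).false cp
  · obtain ⟨w, hw1, hw2, hw3⟩ := hno D (v D) x (by
      intro i
      obtain ⟨y, hy1, hy2⟩ := hx1 i
      exact ⟨y, by simpa using hy1, by simpa using hy2⟩)
    exact hx2 w hw1 hw2 (by simpa using hw3)

end Pool.Agent.Helper20.EG
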