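import Mathlib

/-! [EG-2] Fresh rational letters.  helper20 -/

namespace Pool.Agent.Helper20.EG

/-- A strictly decreasing sequence in `(0, 1]`. -/
def uu (n : ℕ) : ℚ := 1 / ((n : ℚ) + 1)

theorem uu_pos (n : ℕ) : 0 < uu n := by
  unfold uu
  positivity

theorem uu_le (n : ℕ) : uu n ≤ 1 := by
  unfold uu
  rw [div_le_one (by positivity)]
  have : (0 : ℚ) ≤ n := Nat.cast_nonneg n
  linarith

theorem uu_lt {a b : ℕ} (h : a < b) : uu b < uu a := by
  unfold uu
  apply one_div_lt_one_div_of_lt (by positivity)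
  have : (a : ℚ) < b := by exact_mod_cast h
  linarith

theorem uu_inj {a b : ℕ} (h : uu a = uu b) : a = b := by
  rcases lt_trichotomy a b with h1 | h1 | h1
  · exact absurd h (uu_lt h1).ne'
  · exact h1
  · exact absurd h (uu_lt h1).ne

/-- Letters near the interval `[m, M]`, the letter `α` goes to `x`. -/
def nm (x m M : ℚ) (α J : ℕ) (e : ℕ → ℕ) (N j : ℕ) : ℚ :=
  if j < α then m - uu (2 * Nat.pair N j + e j)
  else if j = α then x
  else if j < J then M + uu (2 * Nat.pair N (J - j) + e j)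
  else M + 2 + j

theorem nm_self (x m M : ℚ) (α J : ℕ) (e : ℕ → ℕ) (N : ℕ) : nm x m M α J e N α = x := by
  simp [nm]

theorem nm_mono {x m M : ℚ} (h1 : m ≤ x) (h2 : x ≤ M) (α J : ℕ) {e : ℕ → ℕ} (he : ∀ j, e j ≤ 1)
    (N : ℕ) : StrictMono (nm x m M α J e N) := by
  intro a b hab
  have ea := he a
  have eb := he b
  have hb0 : (0 : ℚ) ≤ b := Nat.cast_nonneg b
  have hab' : (a : ℚ) < b := by exact_mod_cast hab
  unfold nm
  split_ifs with a1 b1 b2 b3 a2 b1 b2 b3 a3 b1 b2 b3 b1 b2 b3
  · have := Nat.pair_lt_pair_right N hab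
    have := @uu_lt (2 * Nat.pair N a + e a) (2 * Nat.pair N b + e b) (by omega)
    linarith
  · have := uu_pos (2 * Nat.pair N a + e a)
    linarith
  · have := uu_pos (2 * Nat.pair N a + e a)
    have := uu_pos (2 * Nat.pair N (J - b) + e b)
    linarith
  · have := uu_pos (2 * Nat.pair N a + e a)
    linarith
  · omega
  · omega
  · have := uu_pos (2 * Nat.pair N (J - b) + e b)
    linarith
  · linarith
  · omega
  · omega
  · have := Nat.pair_lt_pair_right N (show J - b < J - a by omega)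
    have := @uu_lt (2 * Nat.pair N (J - b) + e b) (2 * Nat.pair N (J - a) + e a) (by omega)
    linarith
  · have := uu_le (2 * Nat.pair N (J - a) + e a)
    linarith
  · omega
  · omega
  · omega
  · linarith

theorem nm_eq {x y m M : ℚ} (h1 : m ≤ x) (h2 : x ≤ M) (h3 : m ≤ y) (h4 : y ≤ M) {α J : ℕ}
    {e e' : ℕ → ℕ} (he : ∀ j, e j ≤ 1) (he' : ∀ j, e' j ≤ 1) {N N' a b : ℕ} (ha : a < J)
    (hb : b < J) (h : nm x m M α J e N a = nm y m M α J e' N' b) :
    (a = α ∧ b = α ∧ x = y) ∨ (a ≠ α ∧ a = b ∧ N = N' ∧ e a = e' b) := by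
  have ea := he a
  have eb := he' b
  have hm : m ≤ M := h1.trans h2
  unfold nm at h
  split_ifs at h with a1 b1 b2 a2 b1 b2 b1 b2
  · have h5 := uu_inj (sub_right_injective h)
    have h6 : Nat.pair N a = Nat.pair N' b := by omega
    have h7 := Nat.pair_eq_pair.1 h6
    right
    refine ⟨by omega, h7.2, h7.1, by omega⟩
  · have := uu_pos (2 * Nat.pair N a + e a)
    linarith
  · have := uu_pos (2 * Nat.pair N a + e a)
    have := uu_pos (2 * Nat.pair N' (J - b) + e' b)
    linarith
  · have := uu_pos (2 * Nat.pair N' b + e' b)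
    linarith
  · left
    exact ⟨a2, b2, h⟩
  · have := uu_pos (2 * Nat.pair N' (J - b) + e' b)
    linarith
  · have := uu_pos (2 * Nat.pair N (J - a) + e a)
    have := uu_pos (2 * Nat.pair N' b + e' b)
    linarith
  · have := uu_pos (2 * Nat.pair N (J - a) + e a)
    linarith
  · have h5 := uu_inj (add_right_injective _ h)
    have h6 : Nat.pair N (J - a) = Nat.pair N' (J - b) := by omega
    have h7 := Nat.pair_eq_pair.1 h6
    right
    refine ⟨a2, by omega, h7.1, by omega⟩

end Pool.Agent.Helper20.EG
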