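import Pool.Agent.helper20.EG.Core
import Pool.Agent.helper20.EG.Naming

/-! [EG-3] Gluing cycles, general version.  helper20 -/

namespace Pool.Agent.Helper20.EG

variable {G : Type*} [Group G] {X : Type*}

/-- A cycle of length `n` with integer indices. -/
def IsCyc (s : ℚ → G) (F : G × Bool → X) (n : ℕ) (c : ℤ → X) : Prop :=
  (∀ i, AdjX s F (c i) (c (i + 1))) ∧ ∀ i j, c i = c j ↔ (n : ℤ) ∣ i - j

theorem IsCyc.shift {s : ℚ → G} {F : G × Bool → X} {n : ℕ} {c : ℤ → X} (h : IsCyc s F n c)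
    (k : ℤ) : IsCyc s F n (fun i => c (i + k)) := by
  refine ⟨fun i => ?_, fun i j => ?_⟩
  · have := h.1 (i + k)
    rwa [show i + k + 1 = i + 1 + k by ring] at this
  · rw [h.2, show i + k - (j + k) = i - j by ring]

theorem IsCyc.rev {s : ℚ → G} {F : G × Bool → X} {n : ℕ} {c : ℤ → X} (h : IsCyc s F n c)
    (k : ℤ) : IsCyc s F n (fun i => c (k - i)) := by
  refine ⟨fun i => ?_, fun i j => ?_⟩
  · have := (h.1 (k - (i + 1))).symm
    rwa [show k - (i + 1) + 1 = k - i by ring] at this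
  · rw [h.2, show k - i - (k - j) = -(i - j) by ring, dvd_neg]

theorem mk_cyc {s : ℚ → G} {F : G × Bool → X} {n : ℕ} (hn : 1 ≤ n) (b : ℕ → X)
    (hadj : ∀ i < n, AdjX s F (b i) (b (i + 1))) (hcl : b n = b 0)
    (hinj : ∀ i < n, ∀ j < n, b i = b j → i = j) :
    IsCyc s F n (fun i : ℤ => b (i % n).toNat) := by
  have hn' : (0 : ℤ) < n := by omega
  have hlt : ∀ i : ℤ, (i % n).toNat < n := by
    intro i
    have h1 := Int.emod_nonneg i hn'.ne'
    have h2 := Int.emod_lt_of_pos i hn'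
    omega
  refine ⟨fun i => ?_, fun i j => ⟨fun h => ?_, fun h => ?_⟩⟩
  · have h1 := hadj _ (hlt i)
    have h2 := Int.emod_nonneg i hn'.ne'
    have h3 := Int.emod_lt_of_pos i hn'
    by_cases h4 : i % n + 1 < n
    · have h5 : (i + 1) % n = i % n + 1 := by
        rw [Int.add_emod, Int.emod_eq_of_lt (a := 1) (by norm_num) (by omega),
          Int.emod_eq_of_lt (by omega) h4]
      show AdjX s F (b (i % n).toNat) (b ((i + 1) % n).toNat)
      rw [h5]
      rwa [show (i % n + 1).toNat = (i % n).toNat + 1 by omega]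
    · have h5 : (i + 1) % n = 0 := by
        have : i + 1 = (i / n + 1) * n := by
          have := Int.emod_add_mul_ediv i n
          have h6 : i % n = n - 1 := by omega
          rw [h6] at this
          linarith
        rw [this, Int.mul_emod_left]
      show AdjX s F (b (i % n).toNat) (b ((i + 1) % n).toNat)
      rw [h5]
      rw [show (i % n).toNat + 1 = n by omega, hcl] at h1
      exact h1
  · have h1 := hinj _ (hlt i) _ (hlt j) h
    have h2 := Int.emod_nonneg i hn'.ne'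
    have h3 := Int.emod_nonneg j hn'.ne'
    have h4 : i % n = j % n := by omega
    exact Int.emod_eq_emod_iff_emod_sub_eq_zero.1 h4 |> Int.dvd_of_emod_eq_zero
  · have : i % n = j % n := Int.emod_eq_emod_iff_emod_sub_eq_zero.2 (Int.emod_eq_zero_of_dvd h)
    show b (i % n).toNat = b (j % n).toNat
    rw [this]

theorem IsCyc.inj {s : ℚ → G} {F : G × Bool → X} {n : ℕ} {c : ℤ → X} (h : IsCyc s F n c)
    {i j : ℕ} (hi : i < n) (hj : j < n) (e : c i = c j) : i = j := by
  have := (h.2 i j).1 e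
  obtain ⟨k, hk⟩ := this
  have h1 : (i : ℤ) - j < n := by omega
  have h2 : -(n : ℤ) < (i : ℤ) - j := by omega
  have h3 : (0 : ℤ) < n := by omega
  have h4 : k = 0 := by
    by_contra hk0
    rcases lt_or_gt_of_ne hk0 with h5 | h5
    · nlinarith
    · nlinarith
  rw [h4] at hk
  omega

theorem IsCyc.per {s : ℚ → G} {F : G × Bool → X} {n : ℕ} {c : ℤ → X} (h : IsCyc s F n c)
    (i : ℤ) : c (i + n) = c i := by
  rw [h.2]
  exact ⟨1, by ring⟩

/-- Replace the last `e` edges of the cycle by a path. -/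
theorem replace {s : ℚ → G} {F : G × Bool → X} {c : ℤ → X} {r : ℕ → X} {n e L : ℕ}
    (hc : IsCyc s F n c) (he : 1 ≤ e) (hen : e < n) (hL1 : 1 ≤ L)
    (hr : ∀ t < L, AdjX s F (r t) (r (t + 1)))
    (h0 : r 0 = c (-(e : ℤ))) (hL : r L = c 0)
    (hinj : ∀ i < L, ∀ j < L, r i = r j → i = j)
    (hav : ∀ t, 1 ≤ t → t < L → ∀ i : ℤ, r t ≠ c i) :
    ∃ c' : ℤ → X, IsCyc s F (n - e + L) c' ∧ ∀ t < L, c' ((n - e + t : ℕ) : ℤ) = r t := by
  have h0' : r 0 = c ((n - e : ℕ) : ℤ) := by
    rw [h0, ← hc.per]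
    congr 1
    omega
  set b : ℕ → X := fun i => if i < n - e then c i else r (i - (n - e)) with hb
  refine ⟨_, mk_cyc (n := n - e + L) (by omega) b ?_ ?_ ?_, ?_⟩
  · intro i hi
    by_cases h1 : i + 1 < n - e
    · simp only [hb, if_pos h1, if_pos (show i < n - e by omega)]
      exact_mod_cast hc.1 i
    by_cases h2 : i < n - e
    · simp only [hb, if_neg h1, if_pos h2]
      rw [show i + 1 - (n - e) = 0 by omega, h0', show n - e = i + 1 by omega]
      exact_mod_cast hc.1 i
    · simp only [hb, if_neg h1, if_neg h2]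
      have := hr (i - (n - e)) (by omega)
      rwa [show i - (n - e) + 1 = i + 1 - (n - e) by omega] at this
  · simp only [hb]
    rw [if_neg (by omega), if_pos (by omega), show n - e + L - (n - e) = L by omega, hL]
    rfl
  · intro i hi j hj h
    simp only [hb] at h
    have key : ∀ i j, i < n - e → ¬ j < n - e → j < n - e + L → c i ≠ r (j - (n - e)) := by
      intro i j hi hj hj' h
      by_cases hz : j - (n - e) = 0
      · rw [hz, h0'] at h
        have := hc.inj (by omega) (by omega) h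
        omega
      · exact hav (j - (n - e)) (by omega) (by omega) i h.symm
    by_cases h1 : i < n - e <;> by_cases h2 : j < n - e
    · rw [if_pos h1, if_pos h2] at h
      exact hc.inj (by omega) (by omega) h
    · rw [if_pos h1, if_neg h2] at h
      exact absurd h (key i j h1 h2 hj)
    · rw [if_neg h1, if_pos h2] at h
      exact absurd h.symm (key j i h2 h1 hi)
    · rw [if_neg h1, if_neg h2] at h
      have := hinj _ (by omega) _ (by omega) h
      omega
  · intro t ht
    show b ((((n - e + t : ℕ) : ℤ) % ((n - e + L : ℕ) : ℤ)).toNat) = r t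
    rw [Int.emod_eq_of_lt (by omega) (by omega), Int.toNat_natCast]
    simp only [hb]
    rw [if_neg (by omega)]
    congr 1
    omega

theorem finite_bad {f : ℕ → ℕ → X} {M : ℕ} (hf : ∀ i, 2 ≤ i → i < M → Function.Injective (f i))
    {S : Set X} (hS : S.Finite) : {q | ∃ i, 2 ≤ i ∧ i < M ∧ f i q ∈ S}.Finite := by
  have : {q | ∃ i, 2 ≤ i ∧ i < M ∧ f i q ∈ S} ⊆ ⋃ i ∈ Set.Ico 2 M, f i ⁻¹' S := by
    rintro q ⟨i, h1, h2, h3⟩
    simp only [Set.mem_iUnion]
    exact ⟨i, ⟨h1, h2⟩, h3⟩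
  refine Set.Finite.subset ?_ this
  apply Set.Finite.biUnion (Set.finite_Ico 2 M)
  intro i hi
  exact Set.Finite.preimage ((hf i hi.1 hi.2).injOn) hS

theorem IsCyc.finite {s : ℚ → G} {F : G × Bool → X} {n : ℕ} (hn : 1 ≤ n) {c : ℤ → X}
    (h : IsCyc s F n c) : (Set.range c).Finite := by
  have : Set.range c ⊆ (fun i : ℕ => c i) '' Set.Iio n := by
    rintro y ⟨i, rfl⟩
    have hn' : (0 : ℤ) < n := by omega
    have h2 := Int.emod_nonneg i hn'.ne'
    have h3 := Int.emod_lt_of_pos i hn'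
    refine ⟨(i % n).toNat, ?_, ?_⟩
    · show (i % n).toNat < n
      omega
    · show c (((i % n).toNat : ℕ) : ℤ) = c i
      rw [h.2, Int.toNat_of_nonneg h2]
      exact ⟨-(i / n), by
        have := Int.emod_add_mul_ediv i n
        linarith⟩
  exact ((Set.finite_Iio n).image _).subset this

section

variable {s : ℚ → G} {F : G × Bool → X} {μ : ℕ} {β : Bool} {α γ : ℕ} {p q : List ℕ} {J : ℕ}

theorem stepA (hS : Sys s F μ) (hB : Bal s F μ β α γ p q J) (h3 : 3 ≤ μ) {n : ℕ}
    (hn : 2 ≤ n) (h : ∃ c, IsCyc s F n c) : ∃ c, IsCyc s F (n + (μ - 2)) c := by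
  -- put the base on the right side
  obtain ⟨c, C, a, hc, hC, hC0, hC1⟩ : ∃ (c : ℤ → X) (C : G × Bool) (a : ℚ), IsCyc s F n c ∧
      C.2 = β ∧ F C = c 0 ∧ F (stp s a C) = c (-1) := by
    obtain ⟨c, hc⟩ := h
    obtain ⟨z, a, h1, h2⟩ := hc.1 (-1)
    rw [show (-1 : ℤ) + 1 = 0 by norm_num] at h2
    by_cases hz : z.2 = β
    · refine ⟨fun i => c (-1 - i), z, a, hc.rev _, hz, ?_, ?_⟩
      · rw [h1]; norm_num
      · rw [h2]; norm_num
    · refine ⟨c, stp s a z, a, hc, ?_, h2, ?_⟩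
      · rw [stp_snd]
        cases hh : z.2 <;> cases β <;> simp_all
      · rw [stp_stp, h1]
  have he0 : ∀ j : ℕ, (fun _ : ℕ => 0) j ≤ 1 := fun j => by simp
  have hmono : ∀ N, StrictMono (nm a a a α J (fun _ => 0) N) := fun N =>
    nm_mono le_rfl le_rfl α J he0 N
  have hinj : ∀ i, 2 ≤ i → i < μ → Function.Injective
      (fun N => cyc s F μ α γ p q (nm a a a α J (fun _ => 0) N) C i) := by
    intro i hi hi' N N' hNN
    by_contra hne
    refine cyc_gen hS hB (hmono N) (hmono N') (by rw [nm_self, nm_self]) ?_ C i hi hi' hNN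
    intro x y hx hy hxα e
    rcases nm_eq le_rfl le_rfl le_rfl le_rfl he0 he0 hx hy e with h1 | h1
    · exact hxα h1.1
    · exact hne h1.2.2.1
  obtain ⟨N, hN⟩ := (finite_bad (f := fun i N => cyc s F μ α γ p q
    (nm a a a α J (fun _ => 0) N) C i) hinj (hc.finite (by omega))).exists_notMem
  set f := nm a a a α J (fun _ => 0) N with hf
  have hfm : StrictMono f := hmono N
  obtain ⟨c', hc', _⟩ := replace (r := fun t => cyc s F μ α γ p q f C (t + 1)) (e := 1)
    (L := μ - 1) hc le_rfl (by omega) (by omega)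
    (fun t ht => cyc_adj hB hfm C hC (t + 1) (by omega))
    (by
      show cyc s F μ α γ p q f C (0 + 1) = c (-((1 : ℕ) : ℤ))
      rw [zero_add, cyc_one, hf, nm_self, hC1]
      norm_num)
    (by
      show cyc s F μ α γ p q f C (μ - 1 + 1) = c 0
      rw [show μ - 1 + 1 = μ by omega, cyc_len hB, hC0])
    (by
      intro i hi j hj h
      have := cyc_inj hS hB hfm C (i + 1) (j + 1) (by omega) (by omega) h
      omega)
    (by
      intro t ht ht' i h
      exact hN ⟨t + 1, by omega, by omega, ⟨i, h.symm⟩⟩)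
  refine ⟨c', ?_⟩
  rwa [show n - 1 + (μ - 1) = n + (μ - 2) by omega] at hc'

/-- A cycle one of whose vertices uses two letters of the same lift. -/
def St' (s : ℚ → G) (F : G × Bool → X) (β : Bool) (n : ℕ) : Prop :=
  ∃ (c : ℤ → X) (z : G × Bool) (x y : ℚ), IsCyc s F n c ∧ z.2 = β ∧ F z = c (-1) ∧
    F (stp s x z) = c (-2) ∧ F (stp s y z) = c 0

theorem start (hS : Sys s F μ) (hB : Bal s F μ β α γ p q J) (h3 : 3 ≤ μ) : St' s F β μ := by
  have hf : StrictMono (fun n : ℕ => (n : ℚ)) := Nat.strictMono_cast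
  have h1 := mk_cyc (s := s) (F := F) (n := μ) (by omega)
    (fun t => cyc s F μ α γ p q (fun n : ℕ => (n : ℚ)) (1, β) t)
    (fun i hi => cyc_adj hB hf (1, β) rfl i hi)
    (by
      show cyc s F μ α γ p q _ _ μ = cyc s F μ α γ p q _ _ 0
      rw [cyc_len hB, cyc_zero])
    (fun i hi j hj h => cyc_inj hS hB hf (1, β) i j hi hj h)
  refine ⟨_, (1, β), γ, α, h1.shift 1, rfl, ?_, ?_, ?_⟩
  · show F (1, β) = cyc s F μ α γ p q _ _ (((-1 : ℤ) + 1) % μ).toNat
    rw [show ((-1 : ℤ) + 1) = 0 by norm_num, Int.zero_emod, Int.toNat_zero, cyc_zero]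
  · show F (stp s (γ : ℚ) (1, β)) = cyc s F μ α γ p q _ _ (((-2 : ℤ) + 1) % μ).toNat
    rw [show ((-2 : ℤ) + 1) = -1 by norm_num, show ((-1 : ℤ) % μ).toNat = μ - 1 by
      rw [show (-1 : ℤ) = ((μ : ℤ) - 1) + (-1) * μ by ring, Int.add_mul_emod_self_right,
        Int.emod_eq_of_lt (by omega) (by omega)]
      omega, cyc_last hB h3]
  · show F (stp s (α : ℚ) (1, β)) = cyc s F μ α γ p q _ _ (((0 : ℤ) + 1) % μ).toNat
    rw [show ((0 : ℤ) + 1) = 1 by norm_num, Int.emod_eq_of_lt (by norm_num) (by omega),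
      Int.toNat_one, cyc_one]

theorem cyc_ge (hB : Bal s F μ β α γ p q J) {f : ℕ → ℚ} (hf : StrictMono f) (c : G × Bool)
    (hc : c.2 = β) (t : ℕ) (ht : p.length + 1 ≤ t) : cyc s F μ α γ p q f c t =
      F (run s (((γ :: q).map f).take (μ - t)) c) := by
  rcases Nat.eq_or_lt_of_le ht with h | h
  · rw [← h]
    exact cyc_mid hB hf c hc
  · rw [cyc, if_neg (by omega)]

theorem stepB (hS : Sys s F μ) (hB : Bal s F μ β α γ p q J) (h5 : 5 ≤ μ) {n : ℕ} (hn : 3 ≤ n)
    (h : St' s F β n) : St' s F β (n + (2 * μ - 6)) := by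
  obtain ⟨c, z, x, y, hc, hz, hz0, hz1, hz2⟩ := h
  have hlen := hB.len
  have hl1 := hB.l1
  have hxy : x ≠ y := by
    intro e
    rw [e, hz2] at hz1
    have := (hc.2 _ _).1 hz1
    obtain ⟨k, hk⟩ := this
    have hk1 : (n : ℤ) * k = 2 := by linarith
    have hk0 : 0 < k := by
      by_contra hcon
      nlinarith
    nlinarith
  have hmx : min x y ≤ x := min_le_left _ _
  have hmy : min x y ≤ y := min_le_right _ _
  have hMx : x ≤ max x y := le_max_left _ _
  have hMy : y ≤ max x y := le_max_right _ _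
  set m := min x y with hm
  set M := max x y with hM
  have he0 : ∀ j : ℕ, (fun _ : ℕ => 0) j ≤ 1 := fun j => by simp
  have he1 : ∀ j : ℕ, (fun j : ℕ => if j = γ then 0 else 1) j ≤ 1 := fun j => by
    simp only
    split_ifs <;> omega
  have hmono : ∀ N, StrictMono (nm x m M α J (fun _ => 0) N) := fun N =>
    nm_mono hmx hMx α J he0 N
  have hmono' : ∀ N, StrictMono (nm y m M α J (fun j : ℕ => if j = γ then 0 else 1) N) :=
    fun N => nm_mono hmy hMy α J he1 N
  have hinj : ∀ i, 2 ≤ i → i < μ → Function.Injective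
      (fun N => cyc s F μ α γ p q (nm x m M α J (fun _ => 0) N) z i) := by
    intro i hi hi' N N' hNN
    by_contra hne
    refine cyc_gen hS hB (hmono N) (hmono N') (by rw [nm_self, nm_self]) ?_ z i hi hi' hNN
    intro a b ha hb haα e
    rcases nm_eq hmx hMx hmx hMx he0 he0 ha hb e with h1 | h1
    · exact haα h1.1
    · exact hne h1.2.2.1
  have hinj' : ∀ i, 2 ≤ i → i < μ → Function.Injective
      (fun N => cyc s F μ α γ p q (nm y m M α J (fun j : ℕ => if j = γ then 0 else 1) N) z i) := by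
    intro i hi hi' N N' hNN
    by_contra hne
    refine cyc_gen hS hB (hmono' N) (hmono' N') (by rw [nm_self, nm_self]) ?_ z i hi hi' hNN
    intro a b ha hb haα e
    rcases nm_eq hmy hMy hmy hMy he1 he1 ha hb e with h1 | h1
    · exact haα h1.1
    · exact hne h1.2.2.1
  obtain ⟨N, hN⟩ := ((finite_bad (f := fun i N => cyc s F μ α γ p q
    (nm x m M α J (fun _ => 0) N) z i) hinj (hc.finite (by omega))).union
    (finite_bad (f := fun i N => cyc s F μ α γ p q
    (nm y m M α J (fun j : ℕ => if j = γ then 0 else 1) N) z i) hinj'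
      (hc.finite (by omega)))).exists_notMem
  rw [Set.mem_union, not_or] at hN
  obtain ⟨hN1, hN2⟩ := hN
  have hγγ : nm x m M α J (fun _ => 0) N γ =
      nm y m M α J (fun j : ℕ => if j = γ then 0 else 1) N γ := by
    simp only [nm, if_neg hB.ne.symm]
    simp
  have hdis : ∀ a b, a < J → b < J → nm x m M α J (fun _ => 0) N a =
      nm y m M α J (fun j : ℕ => if j = γ then 0 else 1) N b → a = γ ∧ b = γ := by
    intro a b ha hb e
    rcases nm_eq hmx hMx hmy hMy he0 he1 ha hb e with h1 | h1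
    · exact absurd h1.2.2 hxy
    · obtain ⟨_, h2, _, h4⟩ := h1
      by_cases hbγ : b = γ
      · exact ⟨h2.trans hbγ, hbγ⟩
      · rw [if_neg hbγ] at h4
        omega
  set f := nm x m M α J (fun _ => 0) N with hf
  set f' := nm y m M α J (fun j : ℕ => if j = γ then 0 else 1) N with hf'
  have hfm : StrictMono f := hmono N
  have hfm' : StrictMono f' := hmono' N
  have hlast : cyc s F μ α γ p q f z (μ - 1) = cyc s F μ α γ p q f' z (μ - 1) := by
    rw [cyc_last hB (by omega), cyc_last hB (by omega), hγγ]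
  have hcross := fun t t' h1 h2 h3 h4 => cyc_cross hS hB (by omega) hfm hfm' hγγ hdis z hz t t'
    h1 h2 h3 h4
  obtain ⟨c', hc', hval⟩ := replace (r := fun t => if t < μ - 1 then cyc s F μ α γ p q f z (t + 1)
    else cyc s F μ α γ p q f' z (2 * μ - 3 - t)) (e := 2) (L := 2 * μ - 4) hc (by omega)
    (by omega) (by omega)
    (by
      intro t ht
      by_cases h1 : t + 1 < μ - 1
      · simp only [if_pos h1, if_pos (show t < μ - 1 by omega)]
        exact cyc_adj hB hfm z hz (t + 1) (by omega)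
      by_cases h2 : t < μ - 1
      · simp only [if_neg h1, if_pos h2]
        rw [show t + 1 = μ - 1 by omega, hlast, show 2 * μ - 3 - (μ - 1) = μ - 2 by omega]
        have := (cyc_adj hB hfm' z hz (μ - 2) (by omega)).symm
        rwa [show μ - 2 + 1 = μ - 1 by omega] at this
      · simp only [if_neg h1, if_neg h2]
        have := (cyc_adj hB hfm' z hz (2 * μ - 3 - (t + 1)) (by omega)).symm
        rwa [show 2 * μ - 3 - (t + 1) + 1 = 2 * μ - 3 - t by omega] at this)
    (by
      show (if 0 < μ - 1 then cyc s F μ α γ p q f z (0 + 1) else _) = c (-((2 : ℕ) : ℤ))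
      rw [if_pos (by omega), zero_add, cyc_one, hf, nm_self, hz1]
      norm_num)
    (by
      show (if 2 * μ - 4 < μ - 1 then _ else cyc s F μ α γ p q f' z (2 * μ - 3 - (2 * μ - 4))) = c 0
      rw [if_neg (by omega), show 2 * μ - 3 - (2 * μ - 4) = 1 by omega, cyc_one, hf', nm_self, hz2])
    (by
      intro i hi j hj h
      by_cases h1 : i < μ - 1 <;> by_cases h2 : j < μ - 1
      · simp only [if_pos h1, if_pos h2] at h
        have := cyc_inj hS hB hfm z (i + 1) (j + 1) (by omega) (by omega) h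
        omega
      · simp only [if_pos h1, if_neg h2] at h
        exact absurd h (hcross _ _ (by omega) (by omega) (by omega) (by omega))
      · simp only [if_neg h1, if_pos h2] at h
        exact absurd h.symm (hcross _ _ (by omega) (by omega) (by omega) (by omega))
      · simp only [if_neg h1, if_neg h2] at h
        have := cyc_inj hS hB hfm' z (2 * μ - 3 - i) (2 * μ - 3 - j) (by omega) (by omega) h
        omega)
    (by
      intro t ht ht' i h
      by_cases h1 : t < μ - 1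
      · simp only [if_pos h1] at h
        exact hN1 ⟨t + 1, by omega, by omega, ⟨i, h.symm⟩⟩
      · simp only [if_neg h1] at h
        exact hN2 ⟨2 * μ - 3 - t, by omega, by omega, ⟨i, h.symm⟩⟩)
  have v1 := hval (μ - 3) (by omega)
  have v2 := hval (μ - 4) (by omega)
  have v3 := hval (μ - 2) (by omega)
  simp only [if_pos (show μ - 3 < μ - 1 by omega), if_pos (show μ - 4 < μ - 1 by omega),
    if_pos (show μ - 2 < μ - 1 by omega)] at v1 v2 v3
  rw [cyc_ge hB hfm z hz _ (by omega)] at v1 v2 v3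
  rw [show μ - (μ - 3 + 1) = 2 by omega] at v1
  rw [show μ - (μ - 4 + 1) = 3 by omega] at v2
  rw [show μ - (μ - 2 + 1) = 1 by omega] at v3
  have q1 : 1 < ((γ :: q).map f).length := by simp; omega
  have q2 : 2 < ((γ :: q).map f).length := by simp; omega
  have w1 := take_succ_run (s := s) ((γ :: q).map f) 1 q1 z
  have w2 := take_succ_run (s := s) ((γ :: q).map f) 2 q2 z
  rw [show 1 + 1 = 2 by rfl] at w1
  rw [show 2 + 1 = 3 by rfl] at w2
  refine ⟨fun i => c' (i + ((n + μ - 4 : ℕ) : ℤ)), run s (((γ :: q).map f).take 2) z,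
    ((γ :: q).map f)[2], ((γ :: q).map f)[1], ?_, ?_, ?_, ?_, ?_⟩
  · have := hc'.shift ((n + μ - 4 : ℕ) : ℤ)
    rwa [show n - 2 + (2 * μ - 4) = n + (2 * μ - 6) by omega] at this
  · rw [run_snd, List.length_take, min_eq_left (by omega)]
    simp [sd, hz]
  · show _ = c' (-1 + ((n + μ - 4 : ℕ) : ℤ))
    rw [← v1]
    congr 1
    omega
  · show _ = c' (-2 + ((n + μ - 4 : ℕ) : ℤ))
    rw [← w2, ← v2]
    congr 1
    omega
  · show _ = c' (0 + ((n + μ - 4 : ℕ) : ℤ))
    rw [w1, stp_stp, ← v3]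
    congr 1
    omega

theorem all_lengths (hS : Sys s F μ) (hB : Bal s F μ β α γ p q J) (h3 : 3 ≤ μ) (b : ℕ)
    (hb : b = 0 ∨ 5 ≤ μ) (a : ℕ) :
    ∃ c, IsCyc s F (μ + b * (2 * μ - 6) + a * (μ - 2)) c := by
  have h1 : St' s F β (μ + b * (2 * μ - 6)) := by
    rcases hb with rfl | h5
    · simpa using start hS hB h3
    · induction b with
      | zero => simpa using start hS hB h3
      | succ b ih =>
        have := stepB hS hB h5 (by omega) ih
        rwa [show μ + b * (2 * μ - 6) + (2 * μ - 6) = μ + (b + 1) * (2 * μ - 6) by ring] at this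
  induction a with
  | zero =>
    obtain ⟨c, _, _, _, hc, _⟩ := h1
    exact ⟨c, by simpa using hc⟩
  | succ a ih =>
    have := stepA hS hB h3 (by omega) ih
    rwa [show μ + b * (2 * μ - 6) + a * (μ - 2) + (μ - 2) =
      μ + b * (2 * μ - 6) + (a + 1) * (μ - 2) by ring] at this

end

theorem exists_mod (P K : ℕ) (hP : 1 ≤ P) : ∃ b, b ≤ P - 1 ∧ ∃ c, K + b = P * c := by
  obtain ⟨M, rfl⟩ : ∃ M, P = M + 1 := ⟨P - 1, by omega⟩
  refine ⟨M - (K + M) % (M + 1), by omega, ?_⟩
  have h4 : (K + M) % (M + 1) < M + 1 := Nat.mod_lt _ (by omega)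
  obtain ⟨c, hc⟩ := Nat.dvd_sub_mod (n := M + 1) (K + M)
  exact ⟨c, by rw [← hc]; omega⟩

theorem arith (μ L k : ℕ) (h3 : 3 ≤ μ) (hL : μ ≤ 2 * L) (hk : 4 * L ^ 2 ≤ k) :
    ∃ a b, (b = 0 ∨ 5 ≤ μ) ∧ μ + b * (2 * μ - 6) + a * (μ - 2) = 2 * k := by
  rcases Nat.even_or_odd' μ with ⟨m, rfl | rfl⟩
  · obtain ⟨M, rfl⟩ : ∃ M, m = M + 2 := ⟨m - 2, by omega⟩
    obtain ⟨t, rfl⟩ : ∃ t, L = M + 2 + t := ⟨L - (M + 2), by omega⟩
    have hMk : M + 2 ≤ k := by nlinarith
    obtain ⟨K, rfl⟩ : ∃ K, k = M + 2 + K := ⟨k - (M + 2), by omega⟩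
    have hK : M * (2 * M + 1) ≤ K := by nlinarith
    obtain ⟨b, hb, c, hc⟩ := exists_mod (M + 1) K (by omega)
    have hb' : b ≤ M := by omega
    have hcb : 2 * b ≤ c := by
      by_contra hcon
      push Not at hcon
      have h6 : (M + 1) * (c + 1) ≤ (M + 1) * (2 * b) := Nat.mul_le_mul_left _ hcon
      have h7 : b * (2 * M + 1) ≤ M * (2 * M + 1) := Nat.mul_le_mul_right _ hb'
      nlinarith
    obtain ⟨a, rfl⟩ : ∃ a, c = 2 * b + a := ⟨c - 2 * b, by omega⟩
    refine ⟨a, b, by omega, ?_⟩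
    rw [show 2 * (2 * (M + 2)) - 6 = 4 * M + 2 by omega, show 2 * (M + 2) - 2 = 2 * M + 2 by omega]
    nlinarith
  · obtain ⟨j, rfl⟩ : ∃ j, m = j + 1 := ⟨m - 1, by omega⟩
    obtain ⟨t, rfl⟩ : ∃ t, L = j + 2 + t := ⟨L - (j + 2), by omega⟩
    have hjk : 2 * j + 2 ≤ k := by nlinarith
    obtain ⟨K, rfl⟩ : ∃ K, k = 2 * j + 2 + K := ⟨k - (2 * j + 2), by omega⟩
    have hK : (2 * j) * (2 * j) ≤ K := by nlinarith
    obtain ⟨b, hb, c, hc⟩ := exists_mod (2 * j + 1) K (by omega)
    have hb' : b ≤ 2 * j := by omega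
    have hcb : b ≤ c := by
      by_contra hcon
      push Not at hcon
      have h6 : (2 * j + 1) * (c + 1) ≤ (2 * j + 1) * b := Nat.mul_le_mul_left _ hcon
      have h7 : b * (2 * j) ≤ (2 * j) * (2 * j) := Nat.mul_le_mul_right _ hb'
      nlinarith
    obtain ⟨a, rfl⟩ : ∃ a, c = b + a := ⟨c - b, by omega⟩
    refine ⟨2 * a + 1, b, by omega, ?_⟩
    rw [show 2 * (2 * (j + 1) + 1) - 6 = 4 * j by omega,
      show 2 * (j + 1) + 1 - 2 = 2 * j + 1 by omega]
    nlinarith

end Pool.Agent.Helper20.EG
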