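import Pool.Agent.helper20.EG.Glue
import Pool.Agent.helper20.EC.Ultra

/-! [EG-4] A limit with rational homogeneous letters, for group actions.  helper20 -/

namespace Pool.Agent.Helper20.EG

open Filter Pool.Agent.Helper20.EC

theorem ev_Om_ins (Ψ : (ℕ → ℕ) → ℕ → Prop) (n0 : ℕ)
    (hdep : ∀ x y : ℕ → ℕ, (∀ n < n0, x n = y n) → ∀ D, Ψ x D ↔ Ψ y D) (i : ℕ) :
    (∀ᶠ p in (Om : Filter ((ℕ → ℕ) × ℕ)), Ψ (p.1 ∘ ins i) p.2) ↔
      ∀ᶠ p in (Om : Filter ((ℕ → ℕ) × ℕ)), Ψ p.1 p.2 := by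
  rw [ev_Om, ev_Om]
  apply eventually_congr
  filter_upwards [U_ge (max n0 i + 1)] with n hn
  obtain ⟨n, rfl⟩ : ∃ k, n = k + 1 := ⟨n - 1, by omega⟩
  have h1 : i ≤ n := le_trans (le_max_right n0 i) (by omega)
  have h2 : n0 ≤ n := le_trans (le_max_left n0 i) (by omega)
  rw [ev_ins i n h1 (fun x => ∀ᶠ D in (U : Filter ℕ), Ψ x D),
    ← ev_ins n n le_rfl (fun x => ∀ᶠ D in (U : Filter ℕ), Ψ x D)]
  apply eventually_congr
  apply Eventually.of_forall
  intro x
  apply eventually_congr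
  apply Eventually.of_forall
  intro D
  apply hdep
  intro j hj
  simp only [Function.comp, ins]
  rw [if_pos (by omega)]

theorem ev_Fu_ge (c : ℕ) (j : ℕ) : ∀ n, j < n →
    ∀ᶠ x in (Fu n : Filter (ℕ → ℕ)), c ≤ x j := by
  induction j with
  | zero =>
    intro n hn
    obtain ⟨n, rfl⟩ : ∃ k, n = k + 1 := ⟨n - 1, by omega⟩
    rw [ev_Fu_succ]
    filter_upwards [U_ge c] with t ht
    exact Eventually.of_forall fun x => ht
  | succ j ih =>
    intro n hn
    obtain ⟨n, rfl⟩ : ∃ k, n = k + 1 := ⟨n - 1, by omega⟩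
    rw [ev_Fu_succ]
    exact Eventually.of_forall fun t => ih n (by omega)

theorem ev_Fu_lt (i : ℕ) : ∀ j n, i < j → j < n →
    ∀ᶠ x in (Fu n : Filter (ℕ → ℕ)), x i < x j := by
  induction i with
  | zero =>
    intro j n hij hn
    obtain ⟨n, rfl⟩ : ∃ k, n = k + 1 := ⟨n - 1, by omega⟩
    obtain ⟨j, rfl⟩ : ∃ k, j = k + 1 := ⟨j - 1, by omega⟩
    rw [ev_Fu_succ]
    exact Eventually.of_forall fun t => ev_Fu_ge (t + 1) j n (by omega)
  | succ i ih =>
    intro j n hij hn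
    obtain ⟨n, rfl⟩ : ∃ k, n = k + 1 := ⟨n - 1, by omega⟩
    obtain ⟨j, rfl⟩ : ∃ k, j = k + 1 := ⟨j - 1, by omega⟩
    rw [ev_Fu_succ]
    exact Eventually.of_forall fun t => ih j n (by omega) (by omega)

theorem ev_letters (i j : ℕ) (hij : i < j) :
    ∀ᶠ p in (Om : Filter ((ℕ → ℕ) × ℕ)), p.1 i < p.1 j ∧ p.1 j < p.2 := by
  rw [ev_Om]
  filter_upwards [U_ge (j + 1)] with n hn
  filter_upwards [ev_Fu_lt i j n hij (by omega)] with x hx
  filter_upwards [U_ge (x j + 1)] with D hD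
  exact ⟨hx, hD⟩

/-- An ultrafilter of finite sets of rational numbers. -/
noncomputable def Vf : Ultrafilter (Finset ℚ) := Ultrafilter.of atTop

theorem Vf_ge (A : Finset ℚ) : ∀ᶠ B in (Vf : Filter (Finset ℚ)), A ⊆ B :=
  Ultrafilter.of_le atTop (eventually_ge_atTop A)

/-- The index ultrafilter. -/
noncomputable def Om' : Ultrafilter (Finset ℚ × ((ℕ → ℕ) × ℕ)) :=
  Vf.bind fun A => Om.map fun p => (A, p)

theorem ev_Om' (P : Finset ℚ × ((ℕ → ℕ) × ℕ) → Prop) :
    (∀ᶠ p in (Om' : Filter (Finset ℚ × ((ℕ → ℕ) × ℕ))), P p) ↔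
      ∀ᶠ A in (Vf : Filter (Finset ℚ)), ∀ᶠ p in (Om : Filter ((ℕ → ℕ) × ℕ)), P (A, p) :=
  Iff.rfl

attribute [irreducible] Om'

/-- The rank of a rational number in a finite set. -/
def rk (A : Finset ℚ) (q : ℚ) : ℕ := (A.filter (· < q)).card

theorem rk_lt {A : Finset ℚ} {q q' : ℚ} (hq : q ∈ A) (h : q < q') : rk A q < rk A q' := by
  apply Finset.card_lt_card
  rw [Finset.ssubset_iff_of_subset]
  · exact ⟨q, by simp [hq, h], by simp⟩
  · intro x hx
    rw [Finset.mem_filter] at hx ⊢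
    exact ⟨hx.1, hx.2.trans h⟩

theorem run_hom {ι G H : Type*} [Group G] [Group H] (f : G →* H) (s : ι → G) (l : List ι)
    (g : G) (b : Bool) :
    run (fun n => f (s n)) l (f g, b) = (f (run s l (g, b)).1, (run s l (g, b)).2) := by
  induction l generalizing g b with
  | nil => rfl
  | cons a l ih =>
    have h1 : stp (fun n => f (s n)) a (f g, b) =
        (f (stp s a (g, b)).1, (stp s a (g, b)).2) := by
      cases b <;> simp [stp]
    rw [run_cons, h1, ih, run_cons]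

theorem run_letters {ι κ G : Type*} [Group G] (s : κ → G) (φ : ι → κ) (l : List ι)
    (v : G × Bool) : run s (l.map φ) v = run (fun n => s (φ n)) l v := by
  induction l generalizing v with
  | nil => rfl
  | cons a l ih => rw [List.map_cons, run_cons, run_cons, ih]; rfl

theorem run_congr {ι G : Type*} [Group G] {s s' : ι → G} {l : List ι} (h : ∀ a ∈ l, s a = s' a)
    (v : G × Bool) : run s l v = run s' l v := by
  induction l generalizing v with
  | nil => rfl
  | cons a l ih =>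
    rw [run_cons, run_cons, ih (fun b hb => h b (List.mem_cons_of_mem _ hb))]
    congr 1
    simp only [stp, h a List.mem_cons_self]

section

variable {Γ : ℕ → Type*} [∀ D, Group (Γ D)] {Y : ℕ → Type*} [∀ D, MulAction (Γ D) (Y D)]
  (τ : ∀ D, ℕ → Γ D) (x0 : ∀ D, Bool → Y D)

/-- Evaluation of free words. -/
def evl (p : Finset ℚ × ((ℕ → ℕ) × ℕ)) : FreeGroup ℚ →* Γ p.2.2 :=
  FreeGroup.lift (fun q => τ p.2.2 (p.2.1 (rk p.1 q)))

@[simp] theorem evl_of (p : Finset ℚ × ((ℕ → ℕ) × ℕ)) (q : ℚ) :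
    evl τ p (FreeGroup.of q) = τ p.2.2 (p.2.1 (rk p.1 q)) := by
  simp [evl]

/-- Evaluation of vertices. -/
def pt (p : Finset ℚ × ((ℕ → ℕ) × ℕ)) (z : FreeGroup ℚ × Bool) : Y p.2.2 :=
  evl τ p z.1 • x0 p.2.2 z.2

/-- Generic equality of vertices. -/
def gen : Setoid (FreeGroup ℚ × Bool) where
  r z z' := ∀ᶠ p in (Om' : Filter (Finset ℚ × ((ℕ → ℕ) × ℕ))), pt τ x0 p z = pt τ x0 p z'
  iseqv :=
    { refl := fun z => Eventually.of_forall fun p => rfl
      symm := fun h => h.mono fun p hp => hp.symm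
      trans := fun h h' => by
        filter_upwards [h, h'] with p h1 h2
        rw [h1, h2] }

/-- The vertex map of the limit. -/
def Fq (z : FreeGroup ℚ × Bool) : Quotient (gen τ x0) := Quotient.mk (gen τ x0) z

theorem Fq_eq (z z' : FreeGroup ℚ × Bool) : Fq τ x0 z = Fq τ x0 z' ↔
    ∀ᶠ p in (Om' : Filter (Finset ℚ × ((ℕ → ℕ) × ℕ))), pt τ x0 p z = pt τ x0 p z' :=
  Quotient.eq

theorem Fq_ne (z z' : FreeGroup ℚ × Bool) : Fq τ x0 z ≠ Fq τ x0 z' ↔
    ∀ᶠ p in (Om' : Filter (Finset ℚ × ((ℕ → ℕ) × ℕ))), pt τ x0 p z ≠ pt τ x0 p z' := by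
  rw [Ne, Fq_eq, ← Ultrafilter.eventually_not]

theorem Fq_left (g : FreeGroup ℚ) (z z' : FreeGroup ℚ × Bool) (h : Fq τ x0 z = Fq τ x0 z') :
    Fq τ x0 (g * z.1, z.2) = Fq τ x0 (g * z'.1, z'.2) := by
  rw [Fq_eq] at h ⊢
  filter_upwards [h] with p hp
  simp only [pt, map_mul, mul_smul] at hp ⊢
  rw [hp]

/-- Closed words over the natural numbers. -/
def Cl (D : ℕ) (s : ℕ → Γ D) (l : List ℕ) (b : Bool) : Prop :=
  (run s l (1, b)).1 • x0 D (run s l (1, b)).2 = x0 D b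

/-- Generically closed words. -/
def Rb (b : Bool) (l : List ℕ) : Prop :=
  ∀ᶠ p in (Om : Filter ((ℕ → ℕ) × ℕ)), Cl x0 p.2 (fun j => τ p.2 (p.1 j)) l b

theorem exists_bound (l : List ℕ) : ∃ B, ∀ a ∈ l, a ≤ B :=
  ⟨l.sum, fun a ha => List.single_le_sum (fun _ _ => Nat.zero_le _) a ha⟩

theorem Rb_ins (b : Bool) (i : ℕ) (l : List ℕ) : Rb τ x0 b (l.map (ins i)) ↔ Rb τ x0 b l := by
  obtain ⟨B, hB⟩ := exists_bound l
  have := ev_Om_ins (fun x D => Cl x0 D (fun j => τ D (x j)) l b) (B + 1) (by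
    intro x y hxy D
    unfold Cl
    rw [run_congr (s := fun j => τ D (x j)) (s' := fun j => τ D (y j)) (l := l)
      (fun a ha => by
        have := hB a ha
        show τ D (x a) = τ D (y a)
        rw [hxy a (by omega)])]) i
  unfold Rb
  rw [← this]
  apply eventually_congr
  apply Eventually.of_forall
  intro p
  unfold Cl
  rw [run_letters]
  rfl

theorem Rb_mono (b : Bool) (l : List ℕ) (B : ℕ) (hB : ∀ a ∈ l, a ≤ B) (φ : ℕ → ℕ)
    (hφ : ∀ i j, i < j → j ≤ B → φ i < φ j) : Rb τ x0 b (l.map φ) ↔ Rb τ x0 b l := by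
  have h1 : l.map φ = l.map (fun j => if j ≤ B then φ j else φ B + j) := by
    apply List.map_congr_left
    intro a ha
    rw [if_pos (hB a ha)]
  rw [h1]
  apply mono_of_ins' (fun l => Rb τ x0 b l) (fun i l => Rb_ins τ x0 b i l)
  intro i j hij
  show (if i ≤ B then φ i else φ B + i) < (if j ≤ B then φ j else φ B + j)
  split_ifs with h2 h3 h3
  · exact hφ i j hij h3
  · rcases Nat.eq_or_lt_of_le h2 with h4 | h4
    · rw [h4]; omega
    · have := hφ i B h4 le_rfl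
      omega
  · omega
  · omega

/-- Closedness only depends on the pattern. -/
theorem closed_iff (b : Bool) (l : List ℕ) (f : ℕ → ℚ) (hf : StrictMono f) :
    Fq τ x0 (run FreeGroup.of (l.map f) (1, b)) = Fq τ x0 (1, b) ↔ Rb τ x0 b l := by
  obtain ⟨B, hB⟩ := exists_bound l
  rw [Fq_eq, ev_Om']
  have h1 : ∀ A : Finset ℚ, (∀ᶠ p in (Om : Filter ((ℕ → ℕ) × ℕ)),
      pt τ x0 (A, p) (run FreeGroup.of (l.map f) (1, b)) = pt τ x0 (A, p) (1, b)) ↔
      Rb τ x0 b (l.map (fun j => rk A (f j))) := by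
    intro A
    unfold Rb
    apply eventually_congr
    apply Eventually.of_forall
    intro p
    unfold Cl pt
    have h2 := run_hom (evl τ (A, p)) FreeGroup.of (l.map f) 1 b
    rw [map_one, run_letters] at h2
    simp only [evl_of] at h2
    rw [run_letters (fun j => τ p.2 (p.1 j)) (fun j => rk A (f j)) l (1, b)]
    have h3 := congrArg Prod.fst h2
    have h4 := congrArg Prod.snd h2
    simp only at h3 h4
    rw [← h3, ← h4, map_one, one_smul]
  simp only [h1]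
  have h5 : ∀ᶠ A in (Vf : Filter (Finset ℚ)), (Rb τ x0 b (l.map (fun j => rk A (f j))) ↔
      Rb τ x0 b l) := by
    filter_upwards [Vf_ge ((Finset.range (B + 1)).image f)] with A hA
    apply Rb_mono τ x0 b l B hB
    intro i j hij hj
    apply rk_lt _ (hf hij)
    apply hA
    rw [Finset.mem_image]
    exact ⟨i, Finset.mem_range.2 (by omega), rfl⟩
  rw [eventually_congr h5]
  exact eventually_const

end

end Pool.Agent.Helper20.EG
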