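import Pool.Agent.helper20.EG.Limit
import Pool.Agent.helper20.EC.Graph

/-! [EG-5] The limit argument: all large even cycles occur.  helper20 -/

namespace Pool.Agent.Helper20.EG

open Filter SimpleGraph Pool.Agent.Helper20.EC

theorem run_eq {G : Type*} [Group G] (s : ℕ → G) (l : List ℕ) (v : G × Bool) :
    run s l v = EC.run s l v := by
  induction l generalizing v with
  | nil => rfl
  | cons a l ih => exact ih _

theorem sd_sd (n : ℕ) (b : Bool) : sd n (sd n b) = b := by
  have := congrArg Prod.snd (run_reverse (FreeGroup.of : ℕ → FreeGroup ℕ)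
    (List.replicate n 0) (1, b))
  rw [run_snd, run_snd] at this
  simpa using this

/-- Every list of rational numbers is the image of a list of natural numbers under a strictly
monotone map. -/
theorem exists_pattern (l : List ℚ) : ∃ f : ℕ → ℚ, StrictMono f ∧ ∃ l' : List ℕ, l = l'.map f := by
  have key : ∃ d K : ℕ, 0 < d ∧ ∀ q ∈ l, ∃ n : ℕ, q = (n : ℚ) / d - K := by
    induction l with
    | nil => exact ⟨1, 0, one_pos, by simp⟩
    | cons q l ih =>
      obtain ⟨d, K, hd, h⟩ := ih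
      have hd' : (d : ℚ) ≠ 0 := by positivity
      have hq : (q.den : ℚ) ≠ 0 := by
        have := q.den_pos
        positivity
      obtain ⟨m, hm⟩ : ∃ m : ℕ, -(m : ℤ) ≤ q.num := ⟨q.num.natAbs, by omega⟩
      refine ⟨d * q.den, K + m, Nat.mul_pos hd q.den_pos, ?_⟩
      intro r hr
      rcases List.mem_cons.1 hr with rfl | hr
      · have h1 : 0 ≤ r.num * d + (K + m : ℕ) * (d * r.den) := by
          have h3 : (1 : ℤ) ≤ r.den := by
            have := r.den_pos
            omega
          have h4 : (0 : ℤ) ≤ d := by omega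
          push_cast
          have h5 : -(m : ℤ) * d ≤ r.num * d := mul_le_mul_of_nonneg_right hm h4
          have h6 : (m : ℤ) * d ≤ (m : ℤ) * (d * r.den) := by
            apply mul_le_mul_of_nonneg_left _ (by positivity)
            nlinarith
          have h7 : (0 : ℤ) ≤ (K : ℤ) * (d * r.den) := by positivity
          nlinarith
        refine ⟨(r.num * d + (K + m : ℕ) * (d * r.den)).toNat, ?_⟩
        have h2 : (((r.num * d + (K + m : ℕ) * (d * r.den)).toNat : ℕ) : ℚ) =
            ((r.num * d + (K + m : ℕ) * (d * r.den) : ℤ) : ℚ) := by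
          have := Int.toNat_of_nonneg h1
          exact_mod_cast this
        rw [h2]
        have h3 : (r : ℚ) = r.num / r.den := (Rat.num_div_den r).symm
        conv_lhs => rw [h3]
        push_cast
        field_simp
        ring
      · obtain ⟨n, hn⟩ := h r hr
        refine ⟨n * q.den + m * (d * q.den), ?_⟩
        rw [hn]
        push_cast
        field_simp
        ring
  obtain ⟨d, K, hd, h⟩ := key
  have hd' : (0 : ℚ) < d := by positivity
  refine ⟨fun n => (n : ℚ) / d - K, ?_, ?_⟩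
  · intro a b hab
    have h1 : (a : ℚ) < b := by exact_mod_cast hab
    have h2 : (a : ℚ) / d < b / d := div_lt_div_of_pos_right h1 hd'
    show (a : ℚ) / d - K < b / d - K
    linarith
  · choose! g hg using h
    refine ⟨l.map g, ?_⟩
    rw [List.map_map]
    conv_lhs => rw [← List.map_id l]
    apply List.map_congr_left
    intro q hq
    exact hg q hq

section

variable {Γ : ℕ → Type*} [∀ D, Group (Γ D)] {Y : ℕ → Type*} [∀ D, MulAction (Γ D) (Y D)]
  {τ : ∀ D, ℕ → Γ D} {x0 : ∀ D, Bool → Y D} {Gr : ∀ D, SimpleGraph (Y D)}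

theorem adj_pt (hadj : ∀ D j (g : Γ D), (Gr D).Adj (g • x0 D false) ((g * τ D j) • x0 D true))
    (p : Finset ℚ × ((ℕ → ℕ) × ℕ)) (a : ℚ) (z : FreeGroup ℚ × Bool) :
    (Gr p.2.2).Adj (pt τ x0 p z) (pt τ x0 p (stp FreeGroup.of a z)) := by
  obtain ⟨g, b⟩ := z
  cases b
  · have := hadj p.2.2 (p.2.1 (rk p.1 a)) (evl τ p g)
    simpa [pt, stp] using this
  · have := hadj p.2.2 (p.2.1 (rk p.1 a)) (evl τ p g * (τ p.2.2 (p.2.1 (rk p.1 a)))⁻¹)
    rw [inv_mul_cancel_right] at this
    simpa [pt, stp] using this.symm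

theorem ne_one (hadj : ∀ D j (g : Γ D), (Gr D).Adj (g • x0 D false) ((g * τ D j) • x0 D true))
    (a : ℚ) (z : FreeGroup ℚ × Bool) : Fq τ x0 (stp FreeGroup.of a z) ≠ Fq τ x0 z := by
  rw [Fq_ne]
  exact Eventually.of_forall fun p => (adj_pt hadj p a z).ne'

theorem ne_two
    (h0 : ∀ D, ∀ i < D, ∀ j < D, (τ D i)⁻¹ • x0 D false = (τ D j)⁻¹ • x0 D false → i = j)
    (h1 : ∀ D, ∀ i < D, ∀ j < D, τ D i • x0 D true = τ D j • x0 D true → i = j)
    {a b : ℚ} (hab : a ≠ b) (z : FreeGroup ℚ × Bool) :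
    Fq τ x0 (stp FreeGroup.of b (stp FreeGroup.of a z)) ≠ Fq τ x0 z := by
  have hev : ∀ᶠ p in (Om' : Filter (Finset ℚ × ((ℕ → ℕ) × ℕ))),
      p.2.1 (rk p.1 a) ≠ p.2.1 (rk p.1 b) ∧ p.2.1 (rk p.1 a) < p.2.2 ∧
        p.2.1 (rk p.1 b) < p.2.2 := by
    rw [ev_Om']
    filter_upwards [Vf_ge {a, b}] with A hA
    rcases lt_or_gt_of_ne hab with h | h
    · filter_upwards [ev_letters _ _ (rk_lt (hA (by simp)) h)] with p hp
      exact ⟨hp.1.ne, hp.1.trans hp.2, hp.2⟩
    · filter_upwards [ev_letters _ _ (rk_lt (hA (by simp)) h)] with p hp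
      exact ⟨hp.1.ne', hp.2, hp.1.trans hp.2⟩
  rw [Fq_ne]
  filter_upwards [hev] with p hp e
  obtain ⟨hp1, hp2, hp3⟩ := hp
  obtain ⟨g, c⟩ := z
  cases c
  · simp only [pt, stp, cond_false, cond_true, Bool.not_false, Bool.not_true, map_mul, map_inv,
      evl_of, mul_smul] at e
    have e1 := MulAction.injective (evl τ p g) e
    rw [smul_eq_iff_eq_inv_smul] at e1
    exact hp1 (h0 _ _ hp2 _ hp3 e1.symm)
  · simp only [pt, stp, cond_false, cond_true, Bool.not_false, Bool.not_true, map_mul, map_inv,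
      evl_of, mul_smul] at e
    have e1 := MulAction.injective (evl τ p g) e
    rw [inv_smul_eq_iff] at e1
    exact hp1 (h1 _ _ hp2 _ hp3 e1.symm)

theorem closed_left {b : Bool} {l : List ℚ}
    (h : Fq τ x0 (run FreeGroup.of l (1, b)) = Fq τ x0 (1, b)) (z : FreeGroup ℚ × Bool)
    (hz : z.2 = b) : Fq τ x0 (run FreeGroup.of l z) = Fq τ x0 z := by
  subst hz
  have h1 := Fq_left τ x0 z.1 _ _ h
  rw [← run_left] at h1
  simpa using h1

theorem closed_left' {l : List ℚ} (z : FreeGroup ℚ × Bool)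
    (h : Fq τ x0 (run FreeGroup.of l z) = Fq τ x0 z) :
    Fq τ x0 (run FreeGroup.of l (1, z.2)) = Fq τ x0 (1, z.2) := by
  have h1 := Fq_left τ x0 z.1⁻¹ _ _ h
  rw [← run_left] at h1
  simpa using h1

/-- A shortest closed word is a balanced closed pattern. -/
theorem exists_bal {μ : ℕ} (h3 : 3 ≤ μ) (l : List ℚ) (hl : l.length = μ)
    (hc : l.IsChain (· ≠ ·)) (z : FreeGroup ℚ × Bool)
    (hz : Fq τ x0 (run FreeGroup.of l z) = Fq τ x0 z) :
    ∃ β α γ p q J, Bal FreeGroup.of (Fq τ x0) μ β α γ p q J := by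
  obtain ⟨f, hf, W, rfl⟩ := exists_pattern l
  rw [List.length_map] at hl
  have hWc : W.IsChain (· ≠ ·) := by
    rw [List.isChain_map] at hc
    exact hc.imp fun a b hab h => hab (by rw [h])
  have hR : Rb τ x0 z.2 W := by
    rw [← closed_iff τ x0 z.2 W f hf]
    exact closed_left' z hz
  obtain ⟨B, hB⟩ := exists_bound W
  set h := μ / 2 with hh
  have hW : W = W.take h ++ W.drop h := (List.take_append_drop h W).symm
  obtain ⟨α, p, hp⟩ : ∃ α p, (W.take h).reverse = α :: p := by
    rcases hr : (W.take h).reverse with _ | ⟨α, p⟩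
    · have := congrArg List.length hr
      rw [List.length_reverse, List.length_take, List.length_nil] at this
      omega
    · exact ⟨α, p, rfl⟩
  obtain ⟨γ, q, hq⟩ : ∃ γ q, W.drop h = γ :: q := by
    rcases hr : W.drop h with _ | ⟨γ, q⟩
    · have := congrArg List.length hr
      rw [List.length_drop, List.length_nil] at this
      omega
    · exact ⟨γ, q, rfl⟩
  have hp' : W.take h = (α :: p).reverse := by rw [← hp, List.reverse_reverse]
  have lp : p.length + 1 = h := by
    have := congrArg List.length hp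
    rw [List.length_reverse, List.length_take, List.length_cons] at this
    omega
  have lq : q.length + 1 = μ - h := by
    have := congrArg List.length hq
    rw [List.length_drop, List.length_cons] at this
    omega
  have hWc' := hWc
  rw [hW, List.isChain_append] at hWc'
  refine ⟨sd h z.2, α, γ, p, q, B + 1, ⟨?_, ?_, ?_, ?_, ?_, ?_, ?_, ?_, ?_⟩⟩
  · rw [← hp]
    exact isChain_reverse_ne hWc'.1
  · rw [← hq]
    exact hWc'.2.1
  · exact hWc'.2.2 α (by rw [hp']; simp) γ (by rw [hq]; simp)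
  · omega
  · omega
  · omega
  · intro a ha
    rw [← hp, List.mem_reverse] at ha
    have := hB a (List.mem_of_mem_take ha)
    omega
  · intro a ha
    rw [← hq] at ha
    have := hB a (List.mem_of_mem_drop ha)
    omega
  · intro f' hf' c hcβ
    have hz0 : (run FreeGroup.of ((α :: p).map f') c).2 = z.2 := by
      rw [run_snd, List.length_map, List.length_cons, lp, hcβ, sd_sd]
    have h1 := closed_left ((closed_iff τ x0 z.2 W f' hf').2 hR)
      (run FreeGroup.of ((α :: p).map f') c) hz0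
    rw [← h1]
    congr 1
    conv_lhs => rw [hW]
    rw [List.map_append, run_append, hp', List.map_reverse, run_reverse, hq]

/-- Transfer of a cycle in the limit to one of the graphs. -/
theorem transfer (hadj : ∀ D j (g : Γ D), (Gr D).Adj (g • x0 D false) ((g * τ D j) • x0 D true))
    {n : ℕ} {c : ℤ → Quotient (gen τ x0)} (hc : IsCyc FreeGroup.of (Fq τ x0) n c) :
    ∃ D, (cycleGraph n).IsContained (Gr D) := by
  classical
  have hrep : ∀ i : ℤ, ∃ z, Fq τ x0 z = c i := fun i => Quotient.exists_rep (c i)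
  choose r hr using hrep
  have hA := hc.1
  choose z a h1 h2 using hA
  have e1 : ∀ᶠ p in (Om' : Filter (Finset ℚ × ((ℕ → ℕ) × ℕ))), ∀ i ∈ Set.Iio n,
      (Gr p.2.2).Adj (pt τ x0 p (r (i : ℕ))) (pt τ x0 p (r ((i : ℕ) + 1))) := by
    rw [Filter.eventually_all_finite (Set.finite_Iio n)]
    intro i _
    have h3 : Fq τ x0 (r i) = Fq τ x0 (z i) := by rw [hr, h1]
    have h4 : Fq τ x0 (r ((i : ℤ) + 1)) = Fq τ x0 (stp FreeGroup.of (a i) (z i)) := by
      rw [hr, h2]
    rw [Fq_eq] at h3 h4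
    filter_upwards [h3, h4] with p hp3 hp4
    rw [hp3, hp4]
    exact adj_pt hadj p _ _
  have e2 : Fq τ x0 (r (n : ℤ)) = Fq τ x0 (r 0) := by
    rw [hr, hr, hc.2]
    simp
  rw [Fq_eq] at e2
  have e3 : ∀ᶠ p in (Om' : Filter (Finset ℚ × ((ℕ → ℕ) × ℕ))), ∀ i ∈ Set.Iio n, ∀ j ∈ Set.Iio n,
      pt τ x0 p (r (i : ℕ)) = pt τ x0 p (r (j : ℕ)) → i = j := by
    rw [Filter.eventually_all_finite (Set.finite_Iio n)]
    intro i hi
    rw [Filter.eventually_all_finite (Set.finite_Iio n)]
    intro j hj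
    by_cases hij : i = j
    · exact Eventually.of_forall fun p _ => hij
    · have : Fq τ x0 (r (i : ℕ)) ≠ Fq τ x0 (r (j : ℕ)) := by
        rw [hr, hr]
        exact fun e => hij (hc.inj hi hj e)
      rw [Fq_ne] at this
      filter_upwards [this] with p hp e
      exact absurd e hp
  obtain ⟨p, hp1, hp2, hp3⟩ := (e1.and (e2.and e3)).exists
  refine ⟨p.2.2, contained_of_seq (fun i : ℕ => pt τ x0 p (r i)) ?_ ?_ ?_⟩
  · intro i hi
    have := hp1 i hi
    exact_mod_cast this
  · exact_mod_cast hp2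
  · intro i hi j hj e
    exact hp3 i hi j hj e

theorem limit_main (w : FreeGroup ℕ) (hw : w ≠ 1) (k : ℕ) (hk : 4 * w.norm ^ 2 ≤ k)
    (hlaw : ∀ D (f : ℕ → Γ D), FreeGroup.lift f w = 1)
    (hadj : ∀ D j (g : Γ D), (Gr D).Adj (g • x0 D false) ((g * τ D j) • x0 D true))
    (h0 : ∀ D, ∀ i < D, ∀ j < D, (τ D i)⁻¹ • x0 D false = (τ D j)⁻¹ • x0 D false → i = j)
    (h1 : ∀ D, ∀ i < D, ∀ j < D, τ D i • x0 D true = τ D j • x0 D true → i = j) :
    ∃ D, (cycleGraph (2 * k)).IsContained (Gr D) := by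
  classical
  obtain ⟨l0, a1, a2, a3, a4⟩ := exists_list hw
  have hR : Rb τ x0 false l0 := by
    apply Eventually.of_forall
    intro p
    unfold Cl
    have e1 := run_hom (FreeGroup.lift (fun j => τ p.2 (p.1 j))) FreeGroup.of l0 1 false
    rw [run_eq FreeGroup.of, a4, map_one] at e1
    simp only [FreeGroup.lift_apply_of] at e1
    have e2 : FreeGroup.lift (fun j => τ p.2 (p.1 j)) (theta w) = 1 := by
      have e : (FreeGroup.lift (fun j => τ p.2 (p.1 j))).comp theta =
          FreeGroup.lift (fun n => FreeGroup.lift (fun j => τ p.2 (p.1 j))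
            (FreeGroup.of (n + 1) * (FreeGroup.of 0)⁻¹)) := by
        ext n
        simp [theta]
      have := DFunLike.congr_fun e w
      rw [MonoidHom.comp_apply] at this
      rw [this]
      exact hlaw p.2 _
    rw [e2] at e1
    rw [e1]
    simp
  have hcl := (closed_iff τ x0 false l0 (fun n : ℕ => (n : ℚ)) Nat.strictMono_cast).2 hR
  have hex : ∃ n, ∃ l : List ℚ, l ≠ [] ∧ l.IsChain (· ≠ ·) ∧ l.length = n ∧
      ∃ z, Fq τ x0 (run FreeGroup.of l z) = Fq τ x0 z := by
    refine ⟨_, l0.map (fun n : ℕ => (n : ℚ)), ?_, ?_, rfl, (1, false), hcl⟩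
    · simpa using a1
    · exact isChain_map_inj (Nat.strictMono_cast (α := ℚ)).injective a2
  obtain ⟨l, hl, hlc, hln, z, hz⟩ := Nat.find_spec hex
  have hle : Nat.find hex ≤ 2 * w.norm := by
    refine (Nat.find_min' hex ⟨l0.map (fun n : ℕ => (n : ℚ)), ?_, ?_, rfl, (1, false), hcl⟩).trans
      ?_
    · simpa using a1
    · exact isChain_map_inj (Nat.strictMono_cast (α := ℚ)).injective a2
    · rw [List.length_map]
      exact a3
  have hmin : ∀ l' : List ℚ, l' ≠ [] → l'.IsChain (· ≠ ·) → l'.length < Nat.find hex →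
      ∀ z, Fq τ x0 (run FreeGroup.of l' z) ≠ Fq τ x0 z := fun l' b1 b2 b3 z' b4 =>
    Nat.find_min hex b3 ⟨l', b1, b2, rfl, z', b4⟩
  set μ := Nat.find hex with hμ
  have hS : Sys FreeGroup.of (Fq τ x0) μ := ⟨Fq_left τ x0, hmin⟩
  have h3 : 3 ≤ μ := by
    by_contra hcon
    rcases l with _ | ⟨a, _ | ⟨b, _ | ⟨c, l⟩⟩⟩
    · exact hl rfl
    · exact ne_one hadj a z hz
    · simp at hlc
      exact ne_two h0 h1 hlc z hz
    · simp at hln
      omega
  obtain ⟨β, α, γ, p, q, J, hB⟩ := exists_bal h3 l hln hlc z hz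
  obtain ⟨a, b, hab, hlen⟩ := arith μ w.norm k h3 hle hk
  obtain ⟨c, hc⟩ := all_lengths hS hB h3 b hab a
  rw [hlen] at hc
  exact transfer hadj hc

end

end Pool.Agent.Helper20.EG
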