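import Pool.Agent.helper20.EG.Main

/-! [EG-6] Reduction: a dense graph whose group of automorphisms has few orbits contains a star
whose leaves and whose translated centres are all distinct.  helper20 -/

namespace Pool.Agent.Helper20.EG

open Finset SimpleGraph Pool.Agent.Helper20.EC

/-- Double counting of one orbit of ordered pairs. -/
theorem class_card_le {V G : Type*} [Fintype V] [Group G] [MulAction G V] (v u y : V)
    (O O' : Finset V) (hO : ∀ a, a ∈ O ↔ ∃ g : G, g • v = a)
    (hO' : ∀ b, b ∈ O' ↔ ∃ g : G, g • u = b) (hle : O'.card ≤ O.card) (hy : y ∈ O')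
    (X Y : Finset V) (hX : ∀ x, x ∈ X ↔ ∃ g : G, g • v = x ∧ g • y = u)
    (hY : ∀ b, b ∈ Y ↔ ∃ g : G, g • v = v ∧ g • y = b) : Y.card ≤ X.card := by
  classical
  obtain ⟨g0, hg0⟩ := (hO' y).1 hy
  have h := Finset.card_mul_eq_card_mul (s := O) (t := O') (m := Y.card) (n := X.card)
    (fun a b => ∃ g : G, g • v = a ∧ g • y = b) ?_ ?_
  · have hpos : 0 < O.card := Finset.card_pos.2 ⟨v, (hO v).2 ⟨1, one_smul _ _⟩⟩
    by_contra hcon
    push Not at hcon
    have h1 : O'.card * X.card ≤ O.card * X.card := Nat.mul_le_mul_right _ hle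
    have h2 : O.card * X.card < O.card * Y.card := Nat.mul_lt_mul_of_pos_left hcon hpos
    omega
  · intro a ha
    obtain ⟨g, rfl⟩ := (hO a).1 ha
    rw [← Finset.card_image_of_injective Y (MulAction.injective g)]
    congr 1
    ext b
    rw [Finset.mem_bipartiteAbove, Finset.mem_image]
    constructor
    · rintro ⟨_, h, h1, h2⟩
      refine ⟨g⁻¹ • b, (hY _).2 ⟨g⁻¹ * h, ?_, ?_⟩, smul_inv_smul _ _⟩
      · rw [mul_smul, h1, inv_smul_smul]
      · rw [mul_smul, h2]
    · rintro ⟨c, hc, rfl⟩
      obtain ⟨h, h1, h2⟩ := (hY c).1 hc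
      refine ⟨(hO' _).2 ⟨g * h * g0, ?_⟩, g * h, ?_, ?_⟩
      · rw [mul_smul, mul_smul, hg0, h2]
      · rw [mul_smul, h1]
      · rw [mul_smul, h2]
  · intro b hb
    obtain ⟨g, rfl⟩ := (hO' b).1 hb
    rw [← Finset.card_image_of_injective X (MulAction.injective g)]
    congr 1
    ext a
    rw [Finset.mem_bipartiteBelow, Finset.mem_image]
    constructor
    · rintro ⟨_, h, h1, h2⟩
      refine ⟨g⁻¹ • a, (hX _).2 ⟨g⁻¹ * h, ?_, ?_⟩, smul_inv_smul _ _⟩
      · rw [mul_smul, h1]
      · rw [mul_smul, h2, inv_smul_smul]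
    · rintro ⟨c, hc, rfl⟩
      obtain ⟨h, h1, h2⟩ := (hX c).1 hc
      refine ⟨(hO _).2 ⟨g * h, ?_⟩, g * h, ?_, ?_⟩
      · rw [mul_smul, h1]
      · rw [mul_smul, h1]
      · rw [mul_smul, h2]

/-- Classwise injections glue. -/
theorem glue_inj {V C : Type*} [DecidableEq V] [DecidableEq C] (N X : Finset V) (c d : V → C)
    (h : ∀ y ∈ N, (N.filter fun b => c b = c y).card ≤ (X.filter fun x => d x = c y).card) :
    ∃ f : V → V, (∀ y ∈ N, f y ∈ X ∧ d (f y) = c y) ∧ Set.InjOn f N := by
  have h1 : ∀ y ∈ N, ∃ f : V → V,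
      (∀ b ∈ N.filter (fun b => c b = c y), f b ∈ X.filter fun x => d x = c y) ∧
      Set.InjOn f (N.filter fun b => c b = c y) := by
    intro y hy
    obtain ⟨e⟩ := Function.Embedding.nonempty_of_card_le
      (α := ↥(N.filter fun b => c b = c y)) (β := ↥(X.filter fun x => d x = c y))
      (by simpa only [Fintype.card_coe] using h y hy)
    refine ⟨fun b => if hb : b ∈ N.filter (fun b => c b = c y) then (e ⟨b, hb⟩).1 else b, ?_, ?_⟩
    · intro b hb
      simp only [hb, dif_pos]
      exact (e ⟨b, hb⟩).2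
    · intro b hb b' hb' he
      have hb1 : b ∈ N.filter (fun b => c b = c y) := hb
      have hb1' : b' ∈ N.filter (fun b => c b = c y) := hb'
      simp only [hb1, hb1', dif_pos] at he
      have := e.injective (Subtype.ext he)
      exact congrArg Subtype.val this
  have h2 : ∀ κ : C, ∃ f : V → V, ∀ y ∈ N, c y = κ →
      (∀ b ∈ N.filter (fun b => c b = κ), f b ∈ X.filter fun x => d x = κ) ∧
      Set.InjOn f (N.filter fun b => c b = κ) := by
    intro κ
    by_cases hκ : ∃ y ∈ N, c y = κ
    · obtain ⟨y, hy, rfl⟩ := hκ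
      obtain ⟨f, hf⟩ := h1 y hy
      exact ⟨f, fun _ _ _ => hf⟩
    · exact ⟨id, fun y hy hc => absurd ⟨y, hy, hc⟩ hκ⟩
  choose F hF using h2
  refine ⟨fun y => F (c y) y, ?_, ?_⟩
  · intro y hy
    have := (hF (c y) y hy rfl).1 y (Finset.mem_filter.2 ⟨hy, rfl⟩)
    exact Finset.mem_filter.1 this
  · intro y hy y' hy' he
    have a1 := Finset.mem_filter.1 ((hF (c y) y hy rfl).1 y (Finset.mem_filter.2 ⟨hy, rfl⟩))
    have a2 := Finset.mem_filter.1 ((hF (c y') y' hy' rfl).1 y' (Finset.mem_filter.2 ⟨hy', rfl⟩))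
    have hc : c y = c y' := by
      rw [← a1.2, ← a2.2]
      exact congrArg d he
    refine (hF (c y) y hy rfl).2 (Finset.mem_coe.2 (Finset.mem_filter.2 ⟨hy, rfl⟩))
      (Finset.mem_coe.2 (Finset.mem_filter.2 ⟨hy', hc.symm⟩)) ?_
    simp only at he
    rw [he, hc]

/-- The star. -/
theorem exists_star {V G : Type*} [Fintype V] [Group G] [MulAction G V] (v u : V)
    (O O' : Finset V) (hO : ∀ a, a ∈ O ↔ ∃ g : G, g • v = a)
    (hO' : ∀ b, b ∈ O' ↔ ∃ g : G, g • u = b) (hle : O'.card ≤ O.card)
    (N : Finset V) (hN : N ⊆ O') :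
    ∃ r : V → G, (∀ y ∈ N, r y • u = y) ∧ ∀ y ∈ N, ∀ y' ∈ N, (r y)⁻¹ • v = (r y')⁻¹ • v → y = y' := by
  classical
  set c : V → MulAction.orbitRel.Quotient G (V × V) := fun y => Quotient.mk _ (v, y) with hc
  set d : V → MulAction.orbitRel.Quotient G (V × V) := fun x => Quotient.mk _ (x, u) with hd
  have key : ∀ y ∈ N, (N.filter fun b => c b = c y).card ≤
      ((univ : Finset V).filter fun x => d x = c y).card := by
    intro y hy
    have hsub : (N.filter fun b => c b = c y) ⊆ ((univ : Finset V).filter fun b => c b = c y) :=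
      Finset.filter_subset_filter _ (Finset.subset_univ _)
    refine (Finset.card_le_card hsub).trans ?_
    refine class_card_le (G := G) v u y O O' hO hO' hle (hN hy) _ _ ?_ ?_
    · intro x
      rw [Finset.mem_filter]
      simp only [Finset.mem_univ, true_and, hc, hd]
      rw [Quotient.eq, MulAction.orbitRel_apply, MulAction.mem_orbit_iff]
      constructor
      · rintro ⟨g, hg⟩
        rw [Prod.smul_mk, Prod.mk.injEq] at hg
        exact ⟨g, hg.1, hg.2⟩
      · rintro ⟨g, h1, h2⟩
        exact ⟨g, by rw [Prod.smul_mk, h1, h2]⟩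
    · intro b
      rw [Finset.mem_filter]
      simp only [Finset.mem_univ, true_and, hc]
      rw [Quotient.eq, MulAction.orbitRel_apply, MulAction.mem_orbit_iff]
      constructor
      · rintro ⟨g, hg⟩
        rw [Prod.smul_mk, Prod.mk.injEq] at hg
        exact ⟨g, hg.1, hg.2⟩
      · rintro ⟨g, h1, h2⟩
        exact ⟨g, by rw [Prod.smul_mk, h1, h2]⟩
  obtain ⟨f, hf1, hf2⟩ := glue_inj N univ c d key
  have h3 : ∀ y : V, ∃ r : G, y ∈ N → (r • u = y ∧ r⁻¹ • v = f y) := by
    intro y
    by_cases hy : y ∈ N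
    · have h4 := (hf1 y hy).2
      simp only [hc, hd] at h4
      rw [Quotient.eq, MulAction.orbitRel_apply, MulAction.mem_orbit_iff] at h4
      obtain ⟨g, hg⟩ := h4
      rw [Prod.smul_mk, Prod.mk.injEq] at hg
      refine ⟨g⁻¹, fun _ => ⟨?_, ?_⟩⟩
      · rw [← hg.2, inv_smul_smul]
      · rw [inv_inv, hg.1]
    · exact ⟨1, fun h => absurd h hy⟩
  choose r hr using h3
  refine ⟨r, fun y hy => (hr y hy).1, ?_⟩
  intro y hy y' hy' he
  rw [(hr y hy).2, (hr y' hy').2] at he
  exact hf2 hy hy' he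

/-- The sum of the arcs between pairs of orbits. -/
theorem exists_pair {V Ω : Type*} [Fintype V] [Fintype Ω] [DecidableEq Ω] [DecidableEq V]
    (Γ : SimpleGraph V) [DecidableRel Γ.Adj] (π : V → Ω) (D : ℕ)
    (h : D * Fintype.card Ω * Fintype.card V < Γ.edgeSet.ncard) :
    ∃ o o' : Ω, (univ.filter fun b => π b = o').card ≤ (univ.filter fun a => π a = o).card ∧
      ∃ v, π v = o ∧ D < (univ.filter fun b => Γ.Adj v b ∧ π b = o').card := by
  by_contra hcon
  push Not at hcon
  have h1 : Γ.edgeSet.ncard = Γ.edgeFinset.card := by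
    rw [← Set.ncard_coe_finset, coe_edgeFinset]
  rw [h1] at h
  have h2 := Γ.sum_degrees_eq_twice_card_edges
  set s : Ω → ℕ := fun o => (univ.filter fun a => π a = o).card with hs
  set A : Ω → Ω → ℕ := fun o o' => ∑ v ∈ univ.filter (fun a => π a = o),
    (univ.filter fun b => Γ.Adj v b ∧ π b = o').card with hA
  have hA1 : ∀ o o', s o' ≤ s o → A o o' ≤ D * s o := by
    intro o o' hle
    have : A o o' ≤ ∑ _v ∈ univ.filter (fun a => π a = o), D := by
      apply Finset.sum_le_sum
      intro v hv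
      exact hcon o o' hle v (Finset.mem_filter.1 hv).2
    rw [Finset.sum_const, smul_eq_mul, mul_comm] at this
    exact this
  have hA2 : ∀ o o', A o o' = A o' o := by
    intro o o'
    have := Finset.sum_card_bipartiteAbove_eq_sum_card_bipartiteBelow
      (s := univ.filter fun a => π a = o) (t := univ.filter fun b => π b = o') Γ.Adj
    have e1 : A o o' = ∑ a ∈ univ.filter (fun a => π a = o),
        ((univ.filter fun b => π b = o').bipartiteAbove Γ.Adj a).card := by
      apply Finset.sum_congr rfl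
      intro a _
      congr 1
      ext b
      rw [Finset.mem_bipartiteAbove, Finset.mem_filter, Finset.mem_filter]
      tauto
    have e2 : A o' o = ∑ b ∈ univ.filter (fun b => π b = o'),
        ((univ.filter fun a => π a = o).bipartiteBelow Γ.Adj b).card := by
      apply Finset.sum_congr rfl
      intro a _
      congr 1
      ext b
      rw [Finset.mem_bipartiteBelow, Finset.mem_filter, Finset.mem_filter, Γ.adj_comm]
      tauto
    rw [e1, e2, this]
  have hA3 : ∀ o o', A o o' ≤ D * s o + D * s o' := by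
    intro o o'
    rcases le_total (s o') (s o) with h | h
    · exact (hA1 o o' h).trans (Nat.le_add_right _ _)
    · rw [hA2]
      exact (hA1 o' o h).trans (Nat.le_add_left _ _)
  have hsum : ∑ o : Ω, s o = Fintype.card V := by
    rw [← Finset.card_univ, hs]
    exact (Finset.card_eq_sum_card_fiberwise (f := π) (s := univ) (t := univ)
      (fun _ _ => Finset.mem_coe.2 (Finset.mem_univ _))).symm
  have hsum2 : ∑ o : Ω, ∑ o' : Ω, A o o' = ∑ v : V, Γ.degree v := by
    have e1 : ∀ v, Γ.degree v = ∑ o' : Ω, (univ.filter fun b => Γ.Adj v b ∧ π b = o').card := by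
      intro v
      rw [← SimpleGraph.card_neighborFinset_eq_degree]
      rw [Finset.card_eq_sum_card_fiberwise (f := π) (s := Γ.neighborFinset v) (t := univ)
        (fun _ _ => Finset.mem_coe.2 (Finset.mem_univ _))]
      apply Finset.sum_congr rfl
      intro o' _
      congr 1
      ext b
      simp
    have e2 : ∑ v : V, Γ.degree v = ∑ o : Ω, ∑ v ∈ univ.filter (fun a => π a = o), Γ.degree v :=
      (Finset.sum_fiberwise univ π _).symm
    rw [e2]
    apply Finset.sum_congr rfl
    intro o _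
    simp only [hA]
    rw [Finset.sum_comm]
    apply Finset.sum_congr rfl
    intro v _
    exact (e1 v).symm
  have h4 : ∑ o : Ω, ∑ o' : Ω, A o o' ≤ ∑ o : Ω, ∑ o' : Ω, (D * s o + D * s o') :=
    Finset.sum_le_sum fun o _ => Finset.sum_le_sum fun o' _ => hA3 o o'
  have h5 : ∑ o : Ω, ∑ o' : Ω, (D * s o + D * s o') =
      2 * (D * Fintype.card Ω * Fintype.card V) := by
    simp only [Finset.sum_add_distrib, Finset.sum_const, Finset.card_univ, smul_eq_mul,
      ← Finset.mul_sum, hsum]
    ring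
  rw [h5, hsum2, h2] at h4
  omega

/-- The reduction. -/
theorem reduction {V G : Type*} [Fintype V] [Group G] [MulAction G V] (Γ : SimpleGraph V)
    (D : ℕ) (h : D * Nat.card (MulAction.orbitRel.Quotient G V) * Fintype.card V <
      Γ.edgeSet.ncard) :
    ∃ (v u : V) (τ : ℕ → G), (∀ j, Γ.Adj v (τ j • u)) ∧
      (∀ i < D, ∀ j < D, (τ i)⁻¹ • v = (τ j)⁻¹ • v → i = j) ∧
      (∀ i < D, ∀ j < D, τ i • u = τ j • u → i = j) := by
  classical
  let _ : Fintype (MulAction.orbitRel.Quotient G V) := Fintype.ofFinite _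
  rw [Nat.card_eq_fintype_card] at h
  set π : V → MulAction.orbitRel.Quotient G V := fun v => Quotient.mk _ v with hπ
  obtain ⟨o, o', hle, v, hv, hc⟩ := exists_pair Γ π D h
  set N := univ.filter fun b => Γ.Adj v b ∧ π b = o' with hN
  have hNne : N.Nonempty := Finset.card_pos.1 (by omega)
  obtain ⟨u, hu⟩ := hNne
  have hu' : π u = o' := (Finset.mem_filter.1 hu).2.2
  have hO : ∀ a, a ∈ (univ.filter fun a => π a = o) ↔ ∃ g : G, g • v = a := by
    intro a
    rw [Finset.mem_filter, ← hv]
    simp only [Finset.mem_univ, true_and, hπ]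
    rw [Quotient.eq, MulAction.orbitRel_apply, MulAction.mem_orbit_iff]
  have hO' : ∀ a, a ∈ (univ.filter fun a => π a = o') ↔ ∃ g : G, g • u = a := by
    intro a
    rw [Finset.mem_filter, ← hu']
    simp only [Finset.mem_univ, true_and, hπ]
    rw [Quotient.eq, MulAction.orbitRel_apply, MulAction.mem_orbit_iff]
  obtain ⟨r, hr1, hr2⟩ := exists_star (G := G) v u _ _ hO hO' hle N (by
    intro b hb
    rw [Finset.mem_filter] at hb ⊢
    exact ⟨hb.1, hb.2.2⟩)
  obtain ⟨y, hy1, hy2⟩ : ∃ y : ℕ → V, (∀ j, y j ∈ N) ∧ ∀ i < D, ∀ j < D, y i = y j → i = j := by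
    have e := N.equivFin
    refine ⟨fun j => if hj : j < N.card then (e.symm ⟨j, hj⟩).1 else u, ?_, ?_⟩
    · intro j
      by_cases hj : j < N.card
      · simp only [hj, dif_pos]
        exact (e.symm ⟨j, hj⟩).2
      · simp only [hj, dif_neg, not_false_eq_true]
        exact hu
    · intro i hi j hj he
      have hi' : i < N.card := by omega
      have hj' : j < N.card := by omega
      simp only [hi', hj', dif_pos] at he
      have := e.symm.injective (Subtype.ext he)
      simpa using this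
  refine ⟨v, u, fun j => r (y j), ?_, ?_, ?_⟩
  · intro j
    rw [hr1 _ (hy1 j)]
    exact (Finset.mem_filter.1 (hy1 j)).2.1
  · intro i hi j hj he
    exact hy2 i hi j hj (hr2 _ (hy1 i) _ (hy1 j) he)
  · intro i hi j hj he
    simp only [hr1 _ (hy1 _)] at he
    exact hy2 i hi j hj he

/-- Main theorem: graphs with few orbits under a group satisfying a law. -/
theorem orbit_law (w : FreeGroup ℕ) (hw : w ≠ 1) (k : ℕ) (hk : 4 * w.norm ^ 2 ≤ k) :
    ∃ D : ℕ, ∀ (V : Type) [Fintype V] (Γ : SimpleGraph V) (G : Type) [Group G]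
      [MulAction G V], (∀ f : ℕ → G, FreeGroup.lift f w = 1) →
      (∀ (g : G) (a b : V), Γ.Adj a b → Γ.Adj (g • a) (g • b)) →
      D * Nat.card (MulAction.orbitRel.Quotient G V) * Fintype.card V < Γ.edgeSet.ncard →
        (cycleGraph (2 * k)).IsContained Γ := by
  by_contra hcon
  push Not at hcon
  choose V iV Γ G iG iA hlaw hact hcard hcyc using hcon
  have hred := fun D => reduction (G := G D) (Γ D) D (hcard D)
  choose v u τ h1 h2 h3 using hred
  obtain ⟨D, hD⟩ := limit_main (Γ := G) (Y := V) (Gr := Γ) (τ := τ)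
    (x0 := fun D b => bif b then u D else v D) w hw k hk hlaw
    (by
      intro D j g
      have := hact D g _ _ (h1 D j)
      rw [smul_smul] at this
      simpa using this)
    (by
      intro D i hi j hj he
      exact h2 D i hi j hj (by simpa using he))
    (by
      intro D i hi j hj he
      exact h3 D i hi j hj (by simpa using he))
  obtain ⟨cp⟩ := hD
  exact (hcyc D).false cp

end Pool.Agent.Helper20.EG
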